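import Mathlib

open scoped Topology ENNReal ComplexConjugate
open MeasureTheory Filter

namespace Pool.Agent.Helper853.Gf

/-- closed annulus -/
def Ann (r₁ r₂ : ℝ) : Set ℂ := {ζ | r₁ ≤ ‖ζ‖ ∧ ‖ζ‖ ≤ r₂}

lemma isCompact_Ann (r₁ r₂ : ℝ) : IsCompact (Ann r₁ r₂) := by
  have h : Ann r₁ r₂ = Metric.closedBall 0 r₂ ∩ {ζ | r₁ ≤ ‖ζ‖} := by
    ext ζ
    simp only [Ann, Set.mem_ofPred_eq, Set.mem_inter_iff, mem_closedBall_zero_iff]
    tauto
  rw [h]
  exact (isCompact_closedBall 0 r₂).inter_right (isClosed_le continuous_const continuous_norm)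

/-- mean value of `log |ζ|` over a circle not surrounding the origin -/
lemma mean_log_norm {ζ₀ : ℂ} {ρ : ℝ} (hρ : 0 < ρ) (h : ρ < ‖ζ₀‖) :
    ∫ θ in (0 : ℝ)..(2 * Real.pi), Real.log ‖circleMap ζ₀ ρ θ‖ =
      2 * Real.pi * Real.log ‖ζ₀‖ := by
  have h1 : Real.circleAverage (fun z : ℂ => Real.log ‖z‖) ζ₀ ρ = Real.log ‖ζ₀‖ := by
    apply AnalyticOnNhd.circleAverage_log_norm_of_ne_zero (g := fun z : ℂ => z)
      (fun z _ => analyticAt_id)
    intro u hu h0
    rw [h0, abs_of_pos hρ, Metric.mem_closedBall, dist_comm, dist_zero_right] at hu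
    linarith
  rw [Real.circleAverage_def, smul_eq_mul] at h1
  have hpi : (0 : ℝ) < 2 * Real.pi := by positivity
  rw [← h1, ← mul_assoc, mul_inv_cancel₀ hpi.ne', one_mul]

lemma norm_circleMap_sq (ζ₀ : ℂ) (ρ θ : ℝ) : ‖circleMap ζ₀ ρ θ‖ ^ 2 =
    ‖ζ₀‖ ^ 2 + ρ ^ 2 + (2 * ρ * ζ₀.re * Real.cos θ + 2 * ρ * ζ₀.im * Real.sin θ) := by
  rw [Complex.sq_norm, Complex.sq_norm, Complex.normSq_apply, Complex.normSq_apply]
  have hre : (circleMap ζ₀ ρ θ).re = ζ₀.re + ρ * Real.cos θ := by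
    simp [circleMap, Complex.exp_re]
  have him : (circleMap ζ₀ ρ θ).im = ζ₀.im + ρ * Real.sin θ := by
    simp [circleMap, Complex.exp_im]
  rw [hre, him]
  have := Real.sin_sq_add_cos_sq θ
  nlinarith

lemma mean_norm_sq (ζ₀ : ℂ) (ρ : ℝ) :
    ∫ θ in (0 : ℝ)..(2 * Real.pi), ‖circleMap ζ₀ ρ θ‖ ^ 2 =
      2 * Real.pi * (‖ζ₀‖ ^ 2 + ρ ^ 2) := by
  simp_rw [norm_circleMap_sq]
  have i1 : ∀ c : ℝ, IntervalIntegrable (fun _ : ℝ => c) volume 0 (2 * Real.pi) :=
    fun c => intervalIntegrable_const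
  have i2 : ∀ c : ℝ, IntervalIntegrable (fun θ => c * Real.cos θ) volume 0 (2 * Real.pi) :=
    fun c => (by fun_prop : Continuous fun θ => c * Real.cos θ).intervalIntegrable _ _
  have i3 : ∀ c : ℝ, IntervalIntegrable (fun θ => c * Real.sin θ) volume 0 (2 * Real.pi) :=
    fun c => (by fun_prop : Continuous fun θ => c * Real.sin θ).intervalIntegrable _ _
  rw [intervalIntegral.integral_add (i1 _) ((i2 _).add (i3 _)),
    intervalIntegral.integral_add (i2 _) (i3 _)]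
  simp
  ring

/-- The maximum principle on an annulus: comparison with `A log |ζ| + B`. The sub-mean value
property is stated for negative functions through lower Lebesgue integrals. -/
theorem annulus_max {h : ℂ → EReal} {r₁ r₂ A B : ℝ} (h1 : 0 < r₁)
    (husc : UpperSemicontinuousOn h (Ann r₁ r₂)) (hneg : ∀ ζ ∈ Ann r₁ r₂, h ζ < 0)
    (hsub : ∀ (ζ₀ : ℂ) (ρ : ℝ), 0 < ρ → (∀ ζ : ℂ, ‖ζ - ζ₀‖ ≤ ρ → ζ ∈ Ann r₁ r₂) →
      ∫⁻ θ in Set.Icc (0 : ℝ) (2 * Real.pi), EReal.toENNReal (-(h (circleMap ζ₀ ρ θ))) ≤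
        ENNReal.ofReal (2 * Real.pi) * EReal.toENNReal (-(h ζ₀)))
    (hb1 : ∀ ζ : ℂ, ‖ζ‖ = r₁ → r₁ ≤ r₂ → h ζ ≤ ((A * Real.log r₁ + B : ℝ) : EReal))
    (hb2 : ∀ ζ : ℂ, ‖ζ‖ = r₂ → r₁ ≤ r₂ → h ζ ≤ ((A * Real.log r₂ + B : ℝ) : EReal)) :
    ∀ ζ ∈ Ann r₁ r₂, h ζ ≤ ((A * Real.log ‖ζ‖ + B : ℝ) : EReal) := by
  intro ζs hζs
  by_contra hcon
  push Not at hcon
  have hr12 : r₁ ≤ r₂ := hζs.1.trans hζs.2
  have hr2 : 0 < r₂ := h1.trans_le hr12
  -- the value at the bad point is real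
  have hs_top : h ζs ≠ ⊤ := fun h => by
    have := hneg ζs hζs
    rw [h] at this
    exact absurd this (by simp)
  have hs_bot : h ζs ≠ ⊥ := fun h => by
    rw [h] at hcon
    exact absurd hcon (by simp)
  set v := (h ζs).toReal with hv
  have hvc : h ζs = (v : EReal) := (EReal.coe_toReal hs_top hs_bot).symm
  rw [hvc, EReal.coe_lt_coe_iff] at hcon
  set δ : ℝ := (v - (A * Real.log ‖ζs‖ + B)) / (2 * r₂ ^ 2) with hδ
  have hδpos : 0 < δ := by
    have : 0 < v - (A * Real.log ‖ζs‖ + B) := by linarith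
    positivity
  have hδr : δ * r₂ ^ 2 < v - (A * Real.log ‖ζs‖ + B) := by
    have h2 : δ * r₂ ^ 2 = (v - (A * Real.log ‖ζs‖ + B)) / 2 := by
      rw [hδ]
      field_simp
    rw [h2]
    linarith
  set g : ℂ → ℝ := fun ζ => δ * ‖ζ‖ ^ 2 - (A * Real.log ‖ζ‖ + B) with hg
  have hgc : ContinuousOn g (Ann r₁ r₂) := by
    apply ContinuousOn.sub (by fun_prop)
    apply ContinuousOn.add _ continuousOn_const
    apply ContinuousOn.mul continuousOn_const
    apply ContinuousOn.log continuous_norm.continuousOn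
    intro ζ hζ
    have := hζ.1
    linarith
  have hQusc : UpperSemicontinuousOn (fun ζ => h ζ + ((g ζ : ℝ) : EReal)) (Ann r₁ r₂) := by
    apply husc.add'
    · exact (continuous_coe_real_ereal.comp_continuousOn hgc).upperSemicontinuousOn
    · intro x _
      exact EReal.continuousAt_add (Or.inr (EReal.coe_ne_bot _)) (Or.inr (EReal.coe_ne_top _))
  obtain ⟨ζ₀, hζ₀, hmax⟩ := UpperSemicontinuousOn.exists_isMaxOn ⟨ζs, hζs⟩
    (isCompact_Ann r₁ r₂) hQusc
  have hQs : h ζs + ((g ζs : ℝ) : EReal) ≤ h ζ₀ + ((g ζ₀ : ℝ) : EReal) := hmax hζs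
  have h0_top : h ζ₀ ≠ ⊤ := fun h => by
    have := hneg ζ₀ hζ₀
    rw [h] at this
    exact absurd this (by simp)
  have h0_bot : h ζ₀ ≠ ⊥ := fun h => by
    rw [hvc, h, EReal.bot_add, le_bot_iff] at hQs
    exact absurd hQs (by rw [← EReal.coe_add]; exact EReal.coe_ne_bot _)
  set w := (h ζ₀).toReal with hw
  have hwc : h ζ₀ = (w : EReal) := (EReal.coe_toReal h0_top h0_bot).symm
  have hwneg : w < 0 := by
    have := hneg ζ₀ hζ₀
    rw [hwc] at this
    exact_mod_cast this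
  rw [hvc, hwc, ← EReal.coe_add, ← EReal.coe_add, EReal.coe_le_coe_iff] at hQs
  have hgs : δ * r₂ ^ 2 < v + g ζs := by
    simp only [hg]
    have : 0 ≤ δ * ‖ζs‖ ^ 2 := by positivity
    linarith
  have hQ0 : δ * r₂ ^ 2 < w + g ζ₀ := by linarith
  -- the maximum point is interior
  have hint : r₁ < ‖ζ₀‖ ∧ ‖ζ₀‖ < r₂ := by
    constructor
    · rcases hζ₀.1.lt_or_eq with h | h
      · exact h
      · exfalso
        have h3 := hb1 ζ₀ h.symm hr12
        rw [hwc, EReal.coe_le_coe_iff] at h3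
        simp only [hg] at hQ0
        rw [← h] at hQ0
        have : δ * r₁ ^ 2 ≤ δ * r₂ ^ 2 := by gcongr
        linarith
    · rcases hζ₀.2.lt_or_eq with h | h
      · exact h
      · exfalso
        have h3 := hb2 ζ₀ h hr12
        rw [hwc, EReal.coe_le_coe_iff] at h3
        simp only [hg] at hQ0
        rw [h] at hQ0
        linarith
  obtain ⟨ρ, hρ, hρ1, hρ2⟩ : ∃ ρ : ℝ, 0 < ρ ∧ ρ ≤ ‖ζ₀‖ - r₁ ∧ ρ ≤ r₂ - ‖ζ₀‖ := by
    refine ⟨min (‖ζ₀‖ - r₁) (r₂ - ‖ζ₀‖), lt_min (by linarith [hint.1]) (by linarith [hint.2]),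
      min_le_left _ _, min_le_right _ _⟩
  have hdisc : ∀ ζ : ℂ, ‖ζ - ζ₀‖ ≤ ρ → ζ ∈ Ann r₁ r₂ := by
    intro ζ hζ
    have e1 : ‖ζ₀‖ ≤ ‖ζ‖ + ‖ζ - ζ₀‖ := by
      have := norm_sub_norm_le ζ₀ ζ
      rw [norm_sub_rev] at this
      linarith
    have e2 : ‖ζ‖ ≤ ‖ζ₀‖ + ‖ζ - ζ₀‖ := by
      have := norm_sub_norm_le ζ ζ₀
      linarith
    exact ⟨by linarith, by linarith⟩
  have hcirc : ∀ θ : ℝ, circleMap ζ₀ ρ θ ∈ Ann r₁ r₂ := by
    intro θ
    apply hdisc
    simp [circleMap, abs_of_pos hρ]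
  have hs := hsub ζ₀ ρ hρ hdisc
  -- lower bound for the integral
  set F : ℝ → ℝ := fun θ => -(w + g ζ₀) + g (circleMap ζ₀ ρ θ) with hF
  have hgcirc : Continuous fun θ : ℝ => g (circleMap ζ₀ ρ θ) :=
    hgc.comp_continuous (continuous_circleMap ζ₀ ρ) hcirc
  have hFc : Continuous F := continuous_const.add hgcirc
  have hle : ∀ θ : ℝ, ENNReal.ofReal (F θ) ≤ EReal.toENNReal (-(h (circleMap ζ₀ ρ θ))) := by
    intro θ
    have h3 : h (circleMap ζ₀ ρ θ) + ((g (circleMap ζ₀ ρ θ) : ℝ) : EReal) ≤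
        h ζ₀ + ((g ζ₀ : ℝ) : EReal) := hmax (hcirc θ)
    rw [hwc, ← EReal.coe_add] at h3
    have h4 : ((F θ : ℝ) : EReal) ≤ -(h (circleMap ζ₀ ρ θ)) := by
      rw [EReal.le_neg]
      have h5 : -((F θ : ℝ) : EReal) = (((w + g ζ₀) - g (circleMap ζ₀ ρ θ) : ℝ) : EReal) := by
        rw [← EReal.coe_neg]
        congr 1
        simp only [hF]
        ring
      rw [h5, EReal.coe_sub]
      rw [EReal.le_sub_iff_add_le (Or.inl (EReal.coe_ne_bot _)) (Or.inl (EReal.coe_ne_top _))]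
      exact h3
    calc ENNReal.ofReal (F θ) = EReal.toENNReal ((F θ : ℝ) : EReal) := by simp
      _ ≤ _ := EReal.toENNReal_le_toENNReal h4
  have hpi : (0 : ℝ) < 2 * Real.pi := by positivity
  have hintF : ∫ θ in (0 : ℝ)..(2 * Real.pi), F θ = 2 * Real.pi * (-w + δ * ρ ^ 2) := by
    have hρ0 : ρ < ‖ζ₀‖ := by linarith
    have e1 := mean_log_norm hρ hρ0
    have e2 := mean_norm_sq ζ₀ ρ
    have i1 : IntervalIntegrable (fun θ : ℝ => Real.log ‖circleMap ζ₀ ρ θ‖) volume 0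
        (2 * Real.pi) := by
      apply Continuous.intervalIntegrable
      apply Continuous.log (continuous_circleMap ζ₀ ρ).norm
      intro θ
      have := (hcirc θ).1
      linarith
    have i2 : IntervalIntegrable (fun θ : ℝ => ‖circleMap ζ₀ ρ θ‖ ^ 2) volume 0
        (2 * Real.pi) :=
      ((continuous_circleMap ζ₀ ρ).norm.pow 2).intervalIntegrable _ _
    have e3 : ∀ θ, F θ = (-(w + g ζ₀) - B) + (δ * ‖circleMap ζ₀ ρ θ‖ ^ 2 -
        A * Real.log ‖circleMap ζ₀ ρ θ‖) := by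
      intro θ
      simp only [hF, hg]
      ring
    simp_rw [e3]
    rw [intervalIntegral.integral_add intervalIntegrable_const ((i2.const_mul δ).sub
      (i1.const_mul A)), intervalIntegral.integral_sub (i2.const_mul δ) (i1.const_mul A),
      intervalIntegral.integral_const_mul, intervalIntegral.integral_const_mul, e1, e2,
      intervalIntegral.integral_const]
    simp only [hg, smul_eq_mul, sub_zero]
    ring
  have hlow : ENNReal.ofReal (2 * Real.pi * (-w + δ * ρ ^ 2)) ≤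
      ∫⁻ θ in Set.Icc (0 : ℝ) (2 * Real.pi), EReal.toENNReal (-(h (circleMap ζ₀ ρ θ))) := by
    calc ENNReal.ofReal (2 * Real.pi * (-w + δ * ρ ^ 2)) =
        ENNReal.ofReal (∫ θ in Set.Icc (0 : ℝ) (2 * Real.pi), F θ) := by
          rw [integral_Icc_eq_integral_Ioc, ← intervalIntegral.integral_of_le hpi.le, hintF]
      _ ≤ ENNReal.ofReal (∫ θ in Set.Icc (0 : ℝ) (2 * Real.pi), max (F θ) 0) := by
          apply ENNReal.ofReal_le_ofReal
          apply integral_mono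
          · exact hFc.integrableOn_Icc
          · exact (hFc.max continuous_const).integrableOn_Icc
          · intro θ
            exact le_max_left _ _
      _ = ∫⁻ θ in Set.Icc (0 : ℝ) (2 * Real.pi), ENNReal.ofReal (max (F θ) 0) := by
          apply ofReal_integral_eq_lintegral_ofReal
          · exact (hFc.max continuous_const).integrableOn_Icc
          · exact Eventually.of_forall fun θ => le_max_right _ _
      _ = ∫⁻ θ in Set.Icc (0 : ℝ) (2 * Real.pi), ENNReal.ofReal (F θ) := by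
          apply lintegral_congr
          intro θ
          rcases le_total (F θ) 0 with h | h
          · rw [max_eq_right h, ENNReal.ofReal_zero, ENNReal.ofReal_of_nonpos h]
          · rw [max_eq_left h]
      _ ≤ _ := lintegral_mono hle
  have hfin := hlow.trans hs
  rw [hwc, ← EReal.coe_neg, EReal.toENNReal_of_ne_top (EReal.coe_ne_top _), EReal.toReal_coe,
    ← ENNReal.ofReal_mul hpi.le, ENNReal.ofReal_le_ofReal_iff (by
      have : 0 ≤ -w := by linarith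
      positivity)] at hfin
  have : 0 < 2 * Real.pi * (δ * ρ ^ 2) := by positivity
  nlinarith

end Pool.Agent.Helper853.Gf
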