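import Mathlib

open scoped Topology ContDiff
open Filter

namespace Pool.Agent.Helper853.Gf

/-- a smooth function vanishing for negative arguments and equal to the identity beyond one -/
noncomputable def G (x : ℝ) : ℝ := x * Real.smoothTransition x

lemma contDiff_G : ContDiff ℝ ∞ G := contDiff_id.mul Real.smoothTransition.contDiff

lemma G_nonpos {x : ℝ} (h : x ≤ 0) : G x = 0 := by
  unfold G
  rw [Real.smoothTransition.zero_of_nonpos h, mul_zero]

lemma G_ge_one {x : ℝ} (h : 1 ≤ x) : G x = x := by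
  unfold G
  rw [Real.smoothTransition.one_of_one_le h, mul_one]

lemma G_nonneg (x : ℝ) : 0 ≤ G x := by
  rcases le_total x 0 with h | h
  · rw [G_nonpos h]
  · exact mul_nonneg h (Real.smoothTransition.nonneg x)

lemma hasDerivAt_G (x : ℝ) : HasDerivAt G (deriv G x) x :=
  ((contDiff_G.differentiable (by simp)) x).hasDerivAt

lemma contDiff_G1 : ContDiff ℝ ∞ (deriv G) := by
  have h : ContDiff ℝ (∞ + 1) G := contDiff_G
  exact (contDiff_succ_iff_deriv.mp h).2.2

lemma hasDerivAt_G1 (x : ℝ) : HasDerivAt (deriv G) (deriv (deriv G) x) x :=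
  ((contDiff_G1.differentiable (by simp)) x).hasDerivAt

lemma G1_neg {x : ℝ} (h : x < 0) : deriv G x = 0 := by
  have h1 : G =ᶠ[𝓝 x] fun _ => 0 := by
    filter_upwards [gt_mem_nhds h] with y hy
    exact G_nonpos hy.le
  rw [h1.deriv_eq]
  simp

lemma G2_neg {x : ℝ} (h : x < 0) : deriv (deriv G) x = 0 := by
  have h1 : deriv G =ᶠ[𝓝 x] fun _ => 0 := by
    filter_upwards [gt_mem_nhds h] with y hy
    exact G1_neg hy
  rw [h1.deriv_eq]
  simp

lemma G1_gt {x : ℝ} (h : 1 < x) : deriv G x = 1 := by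
  have h1 : G =ᶠ[𝓝 x] fun y => y := by
    filter_upwards [lt_mem_nhds h] with y hy
    exact G_ge_one hy.le
  rw [h1.deriv_eq]
  simp

lemma G2_gt {x : ℝ} (h : 1 < x) : deriv (deriv G) x = 0 := by
  have h1 : deriv G =ᶠ[𝓝 x] fun _ => 1 := by
    filter_upwards [lt_mem_nhds h] with y hy
    exact G1_gt hy
  rw [h1.deriv_eq]
  simp

lemma exists_bound : ∃ C₀ : ℝ, 0 ≤ C₀ ∧ ∀ x ∈ Set.Icc (0 : ℝ) 1,
    |deriv G x| ≤ C₀ ∧ |deriv (deriv G) x| ≤ C₀ := by
  have hc : Continuous (deriv G) := contDiff_G1.continuous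
  have hc2 : Continuous (deriv (deriv G)) := by
    have h : ContDiff ℝ (∞ + 1) (deriv G) := contDiff_G1
    exact (contDiff_succ_iff_deriv.mp h).2.2.continuous
  obtain ⟨A, hA⟩ := ((isCompact_Icc (a := (0 : ℝ)) (b := 1)).image hc.abs).bddAbove
  obtain ⟨B, hB⟩ := ((isCompact_Icc (a := (0 : ℝ)) (b := 1)).image hc2.abs).bddAbove
  refine ⟨max A B, ?_, ?_⟩
  · exact (abs_nonneg _).trans ((hA ⟨0, by simp, rfl⟩).trans (le_max_left _ _))
  · intro x hx
    exact ⟨(hA ⟨x, hx, rfl⟩).trans (le_max_left _ _), (hB ⟨x, hx, rfl⟩).trans (le_max_right _ _)⟩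

/-- the logarithmic profile -/
noncomputable def Le (e u : ℝ) : ℝ := Real.log ((1 / 25 + e) / (u + e))

lemma hasDerivAt_Le {e u : ℝ} (he : 0 < e) (hu : 0 ≤ u) :
    HasDerivAt (Le e) (-1 / (u + e)) u := by
  have h1 : HasDerivAt (fun u : ℝ => u + e) 1 u := (hasDerivAt_id u).add_const e
  have h2 := (hasDerivAt_const u (1 / 25 + e)).fun_div h1 (by positivity)
  have h3 := h2.log (by positivity)
  refine h3.congr_deriv ?_
  field_simp
  ring

/-- the function `Ψ` -/
noncomputable def Psi (k e u : ℝ) : ℝ := k * G (Le e u)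

/-- its derivative -/
noncomputable def Psi1 (k e u : ℝ) : ℝ := k * (deriv G (Le e u) * (-1 / (u + e)))

/-- its second derivative -/
noncomputable def Psi2 (k e u : ℝ) : ℝ :=
  k * ((deriv (deriv G) (Le e u) * (-1 / (u + e))) * (-1 / (u + e)) +
    deriv G (Le e u) * (1 / (u + e) ^ 2))

lemma hasDerivAt_Psi {k e u : ℝ} (he : 0 < e) (hu : 0 ≤ u) :
    HasDerivAt (Psi k e) (Psi1 k e u) u :=
  ((hasDerivAt_G _).comp u (hasDerivAt_Le he hu)).const_mul k

lemma hasDerivAt_Psi1 {k e u : ℝ} (he : 0 < e) (hu : 0 ≤ u) :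
    HasDerivAt (Psi1 k e) (Psi2 k e u) u := by
  have h1 := (hasDerivAt_G1 (Le e u)).comp u (hasDerivAt_Le he hu)
  have h2 : HasDerivAt (fun u : ℝ => u + e) 1 u := (hasDerivAt_id u).add_const e
  have h3 : HasDerivAt (fun u : ℝ => -1 / (u + e)) (1 / (u + e) ^ 2) u := by
    have := (hasDerivAt_const u (-1 : ℝ)).fun_div h2 (by positivity)
    refine this.congr_deriv ?_
    field_simp
    ring
  exact (h1.mul h3).const_mul k

lemma Psi_nonneg {k e : ℝ} (hk : 0 ≤ k) (u : ℝ) : 0 ≤ Psi k e u := mul_nonneg hk (G_nonneg _)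

lemma Psi_eq_zero {k e u : ℝ} (he : 0 < e) (hu : 1 / 25 ≤ u) : Psi k e u = 0 := by
  unfold Psi
  rw [G_nonpos, mul_zero]
  unfold Le
  apply Real.log_nonpos (by positivity)
  rw [div_le_one (by positivity)]
  linarith

/-- the bound of the Laplacian -/
lemma lap_lt {C₀ k e u : ℝ} (hC : 0 ≤ C₀) (hb : ∀ x ∈ Set.Icc (0 : ℝ) 1,
    |deriv G x| ≤ C₀ ∧ |deriv (deriv G) x| ≤ C₀) (hk : 0 < k) (he : 0 < e) (hu : 0 ≤ u)
    (hkC : k * (75 * C₀) < 1) : u * Psi2 k e u + Psi1 k e u < 1 := by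
  have hue : 0 < u + e := by positivity
  have e1 : u * Psi2 k e u + Psi1 k e u =
      k * (u * deriv (deriv G) (Le e u) - e * deriv G (Le e u)) / (u + e) ^ 2 := by
    unfold Psi2 Psi1
    field_simp
    ring
  rw [e1, div_lt_one (by positivity)]
  rcases lt_or_ge (Le e u) 0 with h | h
  · rw [G1_neg h, G2_neg h]
    simp only [mul_zero, sub_zero]
    positivity
  · rcases lt_or_ge 1 (Le e u) with h1 | h1
    · rw [G1_gt h1, G2_gt h1]
      have : 0 < k * e := by positivity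
      have h2 : 0 < (u + e) ^ 2 := by positivity
      nlinarith
    · obtain ⟨b1, b2⟩ := hb _ ⟨h, h1⟩
      have c1 := (abs_le.mp b1).1
      have c2 := (abs_le.mp b2).2
      have h2 : u * deriv (deriv G) (Le e u) - e * deriv G (Le e u) ≤ (u + e) * C₀ := by
        nlinarith
      have h3 : 1 / 75 ≤ u + e := by
        unfold Le at h1
        have h4 := (Real.log_le_iff_le_exp (by positivity)).mp h1
        rw [div_le_iff₀ hue] at h4
        have h5 := Real.exp_one_lt_d9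
        nlinarith
      calc k * (u * deriv (deriv G) (Le e u) - e * deriv G (Le e u)) ≤
          k * ((u + e) * C₀) := by gcongr
        _ ≤ k * ((u + e) * C₀) * (75 * (u + e)) := by
          apply le_mul_of_one_le_right (by positivity)
          linarith
        _ = (k * (75 * C₀)) * (u + e) ^ 2 := by ring
        _ < 1 * (u + e) ^ 2 := by gcongr
        _ = (u + e) ^ 2 := one_mul _

/-- the barrier function -/
noncomputable def Theta (z : ℂ) : ℝ := -Real.log (4 * ‖z‖ ^ 2 * (1 - ‖z‖ ^ 2))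

lemma norm_bounds {z : ℂ} (hz : ‖z - 1 / 2‖ ≤ 1 / 5) : 3 / 10 ≤ ‖z‖ ∧ ‖z‖ ≤ 7 / 10 := by
  have h1 : ‖(1 / 2 : ℂ)‖ = 1 / 2 := by simp
  have h2 := norm_sub_norm_le (1 / 2 : ℂ) z
  have h3 := norm_sub_norm_le z (1 / 2 : ℂ)
  rw [norm_sub_rev] at h2
  rw [h1] at h2 h3
  constructor <;> linarith

lemma Theta_arg {z : ℂ} (hz : ‖z - 1 / 2‖ ≤ 1 / 5) :
    0 < 4 * ‖z‖ ^ 2 * (1 - ‖z‖ ^ 2) ∧ 4 * ‖z‖ ^ 2 * (1 - ‖z‖ ^ 2) < 1 := by
  obtain ⟨h1, h2⟩ := norm_bounds hz
  have h3 : ‖z‖ ^ 2 ≤ 49 / 100 := by nlinarith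
  have h4 : 9 / 100 ≤ ‖z‖ ^ 2 := by nlinarith
  constructor
  · have : 0 < 1 - ‖z‖ ^ 2 := by linarith
    positivity
  · nlinarith

lemma Theta_pos {z : ℂ} (hz : ‖z - 1 / 2‖ ≤ 1 / 5) : 0 < Theta z := by
  obtain ⟨h1, h2⟩ := Theta_arg hz
  unfold Theta
  have := Real.log_neg h1 h2
  linarith

lemma continuousOn_Theta : ContinuousOn Theta (Metric.closedBall (1 / 2 : ℂ) (1 / 5)) := by
  unfold Theta
  apply ContinuousOn.neg
  apply ContinuousOn.log (by fun_prop)
  intro z hz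
  rw [mem_closedBall_iff_norm] at hz
  exact (Theta_arg hz).1.ne'

/-- existence of the parameters -/
theorem exists_params : ∃ (k e : ℝ) (c : ℂ), 0 < k ∧ 0 < e ∧
    (∀ u, 0 ≤ u → u * Psi2 k e u + Psi1 k e u < 1) ∧
    (∀ z : ℂ, ‖z - 1 / 2‖ ≤ 1 / 5 → Psi k e (‖z - 1 / 2‖ ^ 2) ≤ Theta z) ∧
    ‖c - 1 / 2‖ ≤ 1 / 5 ∧ Psi k e (‖c - 1 / 2‖ ^ 2) = Theta c := by
  obtain ⟨C₀, hC, hb⟩ := exists_bound
  set K : ℝ := 75 * C₀ + 2 with hK
  set e : ℝ := Real.exp (-K) / 25 with he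
  have hepos : 0 < e := by positivity
  have hL0 : K ≤ Le e 0 := by
    unfold Le
    rw [Real.le_log_iff_exp_le (by positivity), zero_add, le_div_iff₀ hepos]
    have h1 : Real.exp K * e = 1 / 25 := by
      rw [he, Real.exp_neg]
      have := (Real.exp_pos K).ne'
      field_simp
    rw [h1]
    linarith
  set S := Metric.closedBall (1 / 2 : ℂ) (1 / 5) with hS
  have hSc : IsCompact S := isCompact_closedBall _ _
  set q : ℂ → ℝ := fun z => G (Le e (‖z - 1 / 2‖ ^ 2)) / Theta z with hq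
  have hLc : Continuous fun z : ℂ => Le e (‖z - 1 / 2‖ ^ 2) := by
    unfold Le
    apply Continuous.log
    · apply Continuous.div continuous_const (by fun_prop)
      intro z
      positivity
    · intro z
      positivity
  have hqc : ContinuousOn q S := by
    apply ContinuousOn.div
    · exact (contDiff_G.continuous.comp hLc).continuousOn
    · exact continuousOn_Theta
    · intro z hz
      exact (Theta_pos (mem_closedBall_iff_norm.mp hz)).ne'
  obtain ⟨c, hcS, hmax⟩ := hSc.exists_isMaxOn ⟨1 / 2, Metric.mem_closedBall_self (by norm_num)⟩ hqc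
  have hcn : ‖c - 1 / 2‖ ≤ 1 / 5 := mem_closedBall_iff_norm.mp hcS
  have hhalf : ‖(1 / 2 : ℂ) - 1 / 2‖ ≤ 1 / 5 := by norm_num
  have hq0 : K ≤ q (1 / 2) := by
    simp only [hq, sub_self, norm_zero, ne_eq, OfNat.ofNat_ne_zero, not_false_eq_true, zero_pow]
    have hT := Theta_pos hhalf
    have hT1 : Theta (1 / 2) ≤ 1 := by
      unfold Theta
      have h1 : ‖(1 / 2 : ℂ)‖ = 1 / 2 := by simp
      rw [h1]
      have h2 : (4 : ℝ) * (1 / 2) ^ 2 * (1 - (1 / 2) ^ 2) = 3 / 4 := by norm_num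
      rw [h2]
      have h3 := Real.one_sub_inv_le_log_of_pos (show (0 : ℝ) < 3 / 4 by norm_num)
      norm_num at h3 ⊢
      linarith
    have hK2 : 2 ≤ K := by rw [hK]; linarith
    rw [G_ge_one (by linarith), le_div_iff₀ hT]
    calc K * Theta (1 / 2) ≤ K * 1 := by gcongr
      _ ≤ Le e 0 := by linarith
  have hK2 : 2 ≤ K := by rw [hK]; linarith
  have hqc0 : K ≤ q c := hq0.trans (hmax (Metric.mem_closedBall_self (by norm_num)))
  have hqpos : 0 < q c := by linarith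
  refine ⟨1 / q c, e, c, by positivity, hepos, ?_, ?_, hcn, ?_⟩
  · intro u hu
    apply lap_lt hC hb (by positivity) hepos hu
    rw [div_mul_eq_mul_div, div_lt_one hqpos]
    linarith
  · intro z hz
    have h1 : q z ≤ q c := hmax (mem_closedBall_iff_norm.mpr hz)
    have hT := Theta_pos hz
    have h2 : G (Le e (‖z - 1 / 2‖ ^ 2)) ≤ q c * Theta z := by
      rw [← div_le_iff₀ hT]
      exact h1
    unfold Psi
    rw [div_mul_eq_mul_div, one_mul, div_le_iff₀ hqpos, mul_comm]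
    exact h2
  · have hT := Theta_pos hcn
    have h2 : G (Le e (‖c - 1 / 2‖ ^ 2)) = q c * Theta c := by
      simp only [hq]
      field_simp
    unfold Psi
    rw [h2]
    field_simp

end Pool.Agent.Helper853.Gf
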