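import Pool.Agent.Helper853.Gf.Upper

open scoped Topology ENNReal ComplexConjugate ContDiff
open MeasureTheory Filter

namespace Pool.Agent.Helper853.Gf

/-- real inner product of complex numbers -/
def ip (a b : ℂ) : ℝ := a.re * b.re + a.im * b.im

lemma norm_line_sq (a b : ℂ) (t : ℝ) :
    ‖a + t • b‖ ^ 2 = ‖a‖ ^ 2 + 2 * ip a b * t + ‖b‖ ^ 2 * t ^ 2 := by
  rw [Complex.sq_norm, Complex.sq_norm, Complex.sq_norm, Complex.normSq_apply,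
    Complex.normSq_apply, Complex.normSq_apply]
  simp only [ip, Complex.add_re, Complex.add_im, Complex.real_smul, Complex.mul_re, Complex.mul_im,
    Complex.ofReal_re, Complex.ofReal_im, zero_mul, sub_zero, add_zero]
  ring

lemma ip_sq_add (a b : ℂ) : ip a b ^ 2 + ip a (Complex.I * b) ^ 2 = ‖a‖ ^ 2 * ‖b‖ ^ 2 := by
  rw [Complex.sq_norm, Complex.sq_norm, Complex.normSq_apply, Complex.normSq_apply]
  simp only [ip, Complex.mul_re, Complex.mul_im, Complex.I_re, Complex.I_im]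
  ring

lemma ip_self (a : ℂ) : ip a a = ‖a‖ ^ 2 := by
  rw [Complex.sq_norm, Complex.normSq_apply]
  rfl

section chain

variable {ρ : E2 → ℝ}

lemma hasDerivAt_line (hρ : ContDiff ℝ 2 ρ) (z ξ : E2) (t : ℝ) :
    HasDerivAt (fun t : ℝ => ρ (z + t • ξ)) (fderiv ℝ ρ (z + t • ξ) ξ) t := by
  have h1 : HasDerivAt (fun t : ℝ => z + t • ξ) ξ t := by
    have := ((hasDerivAt_id t).smul_const ξ).const_add z
    simpa using this
  exact ((hρ.differentiable (by norm_num)) (z + t • ξ)).hasFDerivAt.comp_hasDerivAt t h1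

lemma hasDerivAt_line2 (hρ : ContDiff ℝ 2 ρ) (z ξ : E2) :
    HasDerivAt (fun t : ℝ => fderiv ℝ ρ (z + t • ξ) ξ) (fderiv ℝ (fderiv ℝ ρ) z ξ ξ) 0 := by
  have h1 : HasDerivAt (fun t : ℝ => z + t • ξ) ξ 0 := by
    have := ((hasDerivAt_id (0 : ℝ)).smul_const ξ).const_add z
    simpa using this
  have h2 : ContDiff ℝ 1 (fderiv ℝ ρ) := hρ.fderiv_right (by norm_num)
  have h3 := ((h2.differentiable (by norm_num)) (z + (0 : ℝ) • ξ)).hasFDerivAt.comp_hasDerivAt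
    (0 : ℝ) h1
  have h4 := h3.clm_apply (hasDerivAt_const (0 : ℝ) ξ)
  simp only [zero_smul, add_zero, map_zero] at h4
  exact h4

end chain

section levi

variable {Ψ Ψ1 : ℝ → ℝ} {Ψ2 : ℝ}

/-- The defining functions under consideration. -/
noncomputable def rho (Ψ : ℝ → ℝ) (c₀ : ℂ) (z : E2) : ℝ :=
  ‖z 1‖ ^ 2 * Real.exp (-Ψ (‖z 0 - c₀‖ ^ 2)) + ‖z 0‖ ^ 2 - 1

variable {c₀ : ℂ}

lemma rho_line (z ξ : E2) (t : ℝ) : rho Ψ c₀ (z + t • ξ) =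
    (‖z 1‖ ^ 2 + 2 * ip (z 1) (ξ 1) * t + ‖ξ 1‖ ^ 2 * t ^ 2) *
      Real.exp (-Ψ (‖z 0 - c₀‖ ^ 2 + 2 * ip (z 0 - c₀) (ξ 0) * t + ‖ξ 0‖ ^ 2 * t ^ 2)) +
      (‖z 0‖ ^ 2 + 2 * ip (z 0) (ξ 0) * t + ‖ξ 0‖ ^ 2 * t ^ 2) - 1 := by
  unfold rho
  rw [PiLp.add_apply, PiLp.add_apply, PiLp.smul_apply, PiLp.smul_apply, norm_line_sq, norm_line_sq]
  have : z 0 + t • ξ 0 - c₀ = (z 0 - c₀) + t • ξ 0 := by ring
  rw [this, norm_line_sq]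

lemma quad_deriv (a0 a1 a2 t : ℝ) :
    HasDerivAt (fun t : ℝ => a0 + 2 * a1 * t + a2 * t ^ 2) (2 * a1 + 2 * a2 * t) t := by
  have h1 : HasDerivAt (fun t : ℝ => 2 * a1 * t) (2 * a1) t := by
    simpa using (hasDerivAt_id t).const_mul (2 * a1)
  have h2 : HasDerivAt (fun t : ℝ => a2 * t ^ 2) (a2 * (2 * t)) t := by
    have := ((hasDerivAt_id t).pow 2).const_mul a2
    simpa using this
  have h3 := (h1.const_add a0).add h2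
  refine h3.congr_deriv ?_
  ring

lemma lin_deriv (a1 a2 t : ℝ) :
    HasDerivAt (fun t : ℝ => 2 * a1 + 2 * a2 * t) (2 * a2) t := by
  have h1 : HasDerivAt (fun t : ℝ => 2 * a2 * t) (2 * a2) t := by
    simpa using (hasDerivAt_id t).const_mul (2 * a2)
  exact h1.const_add (2 * a1)

/-- first derivative of the defining function -/
lemma fderiv_rho (hρ : ContDiff ℝ 2 (rho Ψ c₀)) (hΨ : ∀ u, 0 ≤ u → HasDerivAt Ψ (Ψ1 u) u)
    (z ξ : E2) (t : ℝ) : fderiv ℝ (rho Ψ c₀) (z + t • ξ) ξ =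
    (2 * ip (z 1) (ξ 1) + 2 * ‖ξ 1‖ ^ 2 * t) *
      Real.exp (-Ψ (‖z 0 - c₀‖ ^ 2 + 2 * ip (z 0 - c₀) (ξ 0) * t + ‖ξ 0‖ ^ 2 * t ^ 2)) +
    (‖z 1‖ ^ 2 + 2 * ip (z 1) (ξ 1) * t + ‖ξ 1‖ ^ 2 * t ^ 2) *
      (Real.exp (-Ψ (‖z 0 - c₀‖ ^ 2 + 2 * ip (z 0 - c₀) (ξ 0) * t + ‖ξ 0‖ ^ 2 * t ^ 2)) *
      (-(Ψ1 (‖z 0 - c₀‖ ^ 2 + 2 * ip (z 0 - c₀) (ξ 0) * t + ‖ξ 0‖ ^ 2 * t ^ 2) *
        (2 * ip (z 0 - c₀) (ξ 0) + 2 * ‖ξ 0‖ ^ 2 * t)))) +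
      (2 * ip (z 0) (ξ 0) + 2 * ‖ξ 0‖ ^ 2 * t) := by
  have hq : 0 ≤ ‖z 0 - c₀‖ ^ 2 + 2 * ip (z 0 - c₀) (ξ 0) * t + ‖ξ 0‖ ^ 2 * t ^ 2 := by
    rw [← norm_line_sq]
    positivity
  have h1 := hasDerivAt_line hρ z ξ t
  have hA := quad_deriv (‖z 1‖ ^ 2) (ip (z 1) (ξ 1)) (‖ξ 1‖ ^ 2) t
  have hB := quad_deriv (‖z 0 - c₀‖ ^ 2) (ip (z 0 - c₀) (ξ 0)) (‖ξ 0‖ ^ 2) t
  have hC := quad_deriv (‖z 0‖ ^ 2) (ip (z 0) (ξ 0)) (‖ξ 0‖ ^ 2) t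
  have hE := ((hΨ _ hq).comp t hB).neg.exp
  have h2 := ((hA.mul hE).add hC).sub_const 1
  refine HasDerivAt.unique h1 (HasDerivAt.congr_of_eventuallyEq h2
    (Filter.Eventually.of_forall ?_))
  intro s
  change rho Ψ c₀ (z + s • ξ) = _
  rw [rho_line]
  rfl

/-- second derivative of the defining function -/
lemma fderiv2_rho (hρ : ContDiff ℝ 2 (rho Ψ c₀)) (hΨ : ∀ u, 0 ≤ u → HasDerivAt Ψ (Ψ1 u) u)
    (z ξ : E2) (hΨ2 : HasDerivAt Ψ1 Ψ2 (‖z 0 - c₀‖ ^ 2)) :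
    fderiv ℝ (fderiv ℝ (rho Ψ c₀)) z ξ ξ =
    Real.exp (-Ψ (‖z 0 - c₀‖ ^ 2)) * (2 * ‖ξ 1‖ ^ 2 -
      8 * ip (z 1) (ξ 1) * ip (z 0 - c₀) (ξ 0) * Ψ1 (‖z 0 - c₀‖ ^ 2) +
      ‖z 1‖ ^ 2 * (4 * (Ψ1 (‖z 0 - c₀‖ ^ 2) ^ 2 - Ψ2) * ip (z 0 - c₀) (ξ 0) ^ 2 -
        2 * Ψ1 (‖z 0 - c₀‖ ^ 2) * ‖ξ 0‖ ^ 2)) + 2 * ‖ξ 0‖ ^ 2 := by
  have h1 := hasDerivAt_line2 hρ z ξ
  simp_rw [fderiv_rho hρ hΨ z ξ] at h1
  have hA := quad_deriv (‖z 1‖ ^ 2) (ip (z 1) (ξ 1)) (‖ξ 1‖ ^ 2) 0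
  have hB := quad_deriv (‖z 0 - c₀‖ ^ 2) (ip (z 0 - c₀) (ξ 0)) (‖ξ 0‖ ^ 2) 0
  have hA' := lin_deriv (ip (z 1) (ξ 1)) (‖ξ 1‖ ^ 2) 0
  have hB' := lin_deriv (ip (z 0 - c₀) (ξ 0)) (‖ξ 0‖ ^ 2) 0
  have hC' := lin_deriv (ip (z 0) (ξ 0)) (‖ξ 0‖ ^ 2) 0
  have hq : (‖z 0 - c₀‖ ^ 2 + 2 * ip (z 0 - c₀) (ξ 0) * 0 + ‖ξ 0‖ ^ 2 * 0 ^ 2) =
      ‖z 0 - c₀‖ ^ 2 := by ring
  have hΨa : HasDerivAt Ψ (Ψ1 (‖z 0 - c₀‖ ^ 2))
      (‖z 0 - c₀‖ ^ 2 + 2 * ip (z 0 - c₀) (ξ 0) * 0 + ‖ξ 0‖ ^ 2 * 0 ^ 2) := by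
    rw [hq]
    exact hΨ _ (by positivity)
  have hΨb : HasDerivAt Ψ1 Ψ2
      (‖z 0 - c₀‖ ^ 2 + 2 * ip (z 0 - c₀) (ξ 0) * 0 + ‖ξ 0‖ ^ 2 * 0 ^ 2) := by
    rw [hq]
    exact hΨ2
  have hE := (hΨa.comp (0 : ℝ) hB).neg.exp
  have hΨB := hΨb.comp (0 : ℝ) hB
  have h2 := ((hA'.mul hE).add (hA.mul (hE.mul (hΨB.mul hB').neg))).add hC'
  have h3 := h1.unique h2
  rw [h3]
  simp only [Function.comp_apply, mul_zero, add_zero, ne_eq, OfNat.ofNat_ne_zero,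
    not_false_eq_true, zero_pow, Pi.mul_apply, Pi.neg_apply]
  ring

/-- strict pseudoconvexity -/
theorem levi_pos (hρ : ContDiff ℝ 2 (rho Ψ c₀)) (hΨ : ∀ u, 0 ≤ u → HasDerivAt Ψ (Ψ1 u) u)
    (z : E2) (hΨ2 : HasDerivAt Ψ1 Ψ2 (‖z 0 - c₀‖ ^ 2))
    (hlap : ‖z 0 - c₀‖ ^ 2 * Ψ2 + Ψ1 (‖z 0 - c₀‖ ^ 2) < 1) (hz : rho Ψ c₀ z = 0) :
    fderiv ℝ (rho Ψ c₀) z ≠ 0 ∧ ∀ ξ : E2, ξ ≠ 0 →
      0 < fderiv ℝ (fderiv ℝ (rho Ψ c₀)) z ξ ξ +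
        fderiv ℝ (fderiv ℝ (rho Ψ c₀)) z (Complex.I • ξ) (Complex.I • ξ) := by
  set E := Real.exp (-Ψ (‖z 0 - c₀‖ ^ 2)) with hE
  have hEpos : 0 < E := Real.exp_pos _
  have hzero : ‖z 1‖ ^ 2 * E = 1 - ‖z 0‖ ^ 2 := by
    unfold rho at hz
    rw [← hE] at hz
    linarith
  constructor
  · intro h0
    by_cases h1 : z 1 = 0
    · have h2 := fderiv_rho hρ hΨ z (pt (z 0) 0) 0
      rw [zero_smul, add_zero, h0] at h2
      simp only [pt_zero, pt_one, h1] at h2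
      simp only [ip, Complex.zero_re, Complex.zero_im] at h2
      have h3 : ‖z 0‖ ^ 2 = 1 := by
        rw [h1, norm_zero] at hzero
        simp only [ne_eq, OfNat.ofNat_ne_zero, not_false_eq_true, zero_pow, zero_mul] at hzero
        linarith
      have h4 := ip_self (z 0)
      unfold ip at h4
      simp at h2
      nlinarith
    · have h2 := fderiv_rho hρ hΨ z (pt 0 (z 1)) 0
      rw [zero_smul, add_zero, h0] at h2
      simp only [pt_zero, pt_one] at h2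
      have h4 := ip_self (z 1)
      have h5 : ∀ a : ℂ, ip a 0 = 0 := fun a => by simp [ip]
      simp only [h5, h4, norm_zero] at h2
      have h6 : 0 < ‖z 1‖ ^ 2 := by
        have := norm_pos_iff.mpr h1
        positivity
      simp at h2
      rcases h2 with h2
      exact h1 h2
  · intro ξ hξ
    rw [fderiv2_rho hρ hΨ z ξ hΨ2, fderiv2_rho hρ hΨ z (Complex.I • ξ) hΨ2]
    rw [← hE]
    have hI : ∀ i, (Complex.I • ξ) i = Complex.I * ξ i := fun i => rfl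
    rw [hI, hI, norm_mul, norm_mul, Complex.norm_I, one_mul, one_mul]
    have s1 := ip_sq_add (z 1) (ξ 1)
    have s0 := ip_sq_add (z 0 - c₀) (ξ 0)
    set a1 := ip (z 1) (ξ 1)
    set a1' := ip (z 1) (Complex.I * ξ 1)
    set b1 := ip (z 0 - c₀) (ξ 0)
    set b1' := ip (z 0 - c₀) (Complex.I * ξ 0)
    set P := Ψ1 (‖z 0 - c₀‖ ^ 2) with hP
    set a0 := ‖z 1‖ ^ 2 with ha0
    set a2 := ‖ξ 1‖ ^ 2 with ha2
    set b0 := ‖z 0 - c₀‖ ^ 2 with hb0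
    set b2 := ‖ξ 0‖ ^ 2 with hb2
    have ha0n : 0 ≤ a0 := by positivity
    have ha2n : 0 ≤ a2 := by positivity
    have hb0n : 0 ≤ b0 := by positivity
    have hb2n : 0 ≤ b2 := by positivity
    have htot : E * (2 * a2 - 8 * a1 * b1 * P + a0 * (4 * (P ^ 2 - Ψ2) * b1 ^ 2 - 2 * P * b2)) +
        2 * b2 + (E * (2 * a2 - 8 * a1' * b1' * P +
          a0 * (4 * (P ^ 2 - Ψ2) * b1' ^ 2 - 2 * P * b2)) + 2 * b2) =
        4 * E * (a2 - 2 * P * (a1 * b1 + a1' * b1') + P ^ 2 * (a0 * b0 * b2)) +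
          4 * b2 * (1 - a0 * E * (b0 * Ψ2 + P)) := by
      have : (b1 ^ 2 + b1' ^ 2) = b0 * b2 := s0
      linear_combination (4 * E * a0 * (P ^ 2 - Ψ2)) * this
    rw [htot]
    have hX : (a1 * b1 + a1' * b1') ^ 2 ≤ a2 * (a0 * b0 * b2) := by
      have e1 : (a1 * b1 + a1' * b1') ^ 2 ≤ (a1 ^ 2 + a1' ^ 2) * (b1 ^ 2 + b1' ^ 2) := by
        nlinarith [sq_nonneg (a1 * b1' - a1' * b1)]
      rw [s1, s0] at e1
      calc _ ≤ _ := e1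
        _ = a2 * (a0 * b0 * b2) := by ring
    have hfirst : 0 ≤ a2 - 2 * P * (a1 * b1 + a1' * b1') + P ^ 2 * (a0 * b0 * b2) := by
      rcases ha2n.lt_or_eq with h | h
      · have e2 : 0 ≤ a2 * (a2 - 2 * P * (a1 * b1 + a1' * b1') + P ^ 2 * (a0 * b0 * b2)) := by
          nlinarith [sq_nonneg (a2 - P * (a1 * b1 + a1' * b1')), mul_le_mul_of_nonneg_left hX
            (sq_nonneg P)]
        exact nonneg_of_mul_nonneg_right e2 h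
      · rw [← h] at hX ⊢
        have e3 : a1 * b1 + a1' * b1' = 0 := by
          have : (a1 * b1 + a1' * b1') ^ 2 = 0 := le_antisymm (by linarith) (sq_nonneg _)
          simpa using this
        rw [e3]
        have : 0 ≤ a0 * b0 * b2 := by positivity
        nlinarith [mul_nonneg (sq_nonneg P) this]
    have hsecond : 0 < 1 - a0 * E * (b0 * Ψ2 + P) := by
      have e4 : a0 * E ≤ 1 := by
        rw [hzero]
        have : 0 ≤ ‖z 0‖ ^ 2 := by positivity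
        linarith
      have e5 : 0 ≤ a0 * E := by positivity
      rcases le_total (b0 * Ψ2 + P) 0 with h | h
      · have : a0 * E * (b0 * Ψ2 + P) ≤ 0 := mul_nonpos_of_nonneg_of_nonpos e5 h
        linarith
      · have : a0 * E * (b0 * Ψ2 + P) ≤ 1 * (b0 * Ψ2 + P) := mul_le_mul_of_nonneg_right e4 h
        linarith
    rcases hb2n.lt_or_eq with h | h
    · have : 0 < 4 * b2 * (1 - a0 * E * (b0 * Ψ2 + P)) := by positivity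
      have h2 : 0 ≤ 4 * E * (a2 - 2 * P * (a1 * b1 + a1' * b1') + P ^ 2 * (a0 * b0 * b2)) := by
        positivity
      linarith
    · have hξ0 : ξ 0 = 0 := by
        have : ‖ξ 0‖ ^ 2 = 0 := h.symm
        simpa using this
      have hb10 : b1 = 0 := by
        change ip (z 0 - c₀) (ξ 0) = 0
        rw [hξ0]
        simp [ip]
      have hb10' : b1' = 0 := by
        change ip (z 0 - c₀) (Complex.I * ξ 0) = 0
        rw [hξ0]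
        simp [ip]
      have hξ1 : ξ 1 ≠ 0 := by
        intro h1
        apply hξ
        ext i
        fin_cases i
        · exact hξ0
        · exact h1
      have ha2pos : 0 < a2 := by
        have := norm_pos_iff.mpr hξ1
        positivity
      rw [← h, hb10, hb10']
      simp only [mul_zero, add_zero, sub_zero, zero_mul]
      positivity

end levi

end Pool.Agent.Helper853.Gf
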