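import Pool.Agent.Helper853.Gf.Fiber
import Pool.Agent.Helper853.Gf.Levi
import Pool.Agent.Helper853.Gf.Bump

open scoped Topology ContDiff
open Filter

namespace Pool.Agent.Helper853.Gf

/-- the domain -/
def Dom (k e : ℝ) : Set E2 := {z | rho (Psi k e) (1 / 2) z < 0}

lemma contDiff_rho {k e : ℝ} (he : 0 < e) : ContDiff ℝ ∞ (rho (Psi k e) (1 / 2)) := by
  have h0 : ContDiff ℝ ∞ (fun z : E2 => z 0) :=
    ((EuclideanSpace.proj (𝕜 := ℂ) (0 : Fin 2)).restrictScalars ℝ).contDiff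
  have h1 : ContDiff ℝ ∞ (fun z : E2 => z 1) :=
    ((EuclideanSpace.proj (𝕜 := ℂ) (1 : Fin 2)).restrictScalars ℝ).contDiff
  have hL : ContDiff ℝ ∞ (fun z : E2 => Le e (‖z 0 - 1 / 2‖ ^ 2)) := by
    unfold Le
    apply ContDiff.log
    · apply ContDiff.div contDiff_const
      · exact ((h0.sub contDiff_const).norm_sq ℝ).add contDiff_const
      · intro z
        positivity
    · intro z
      positivity
  unfold rho Psi
  exact (((h1.norm_sq ℝ).mul (Real.contDiff_exp.comp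
    ((contDiff_const.mul (contDiff_G.comp hL)).neg))).add (h0.norm_sq ℝ)).sub contDiff_const

lemma mem_Dom {k e : ℝ} {z : E2} : z ∈ Dom k e ↔
    ‖z 1‖ ^ 2 * Real.exp (-Psi k e (‖z 0 - 1 / 2‖ ^ 2)) < 1 - ‖z 0‖ ^ 2 := by
  change rho (Psi k e) (1 / 2) z < 0 ↔ _
  unfold rho
  constructor <;> intro h <;> linarith

lemma exp_Theta {z : ℂ} (hz : ‖z - 1 / 2‖ ≤ 1 / 5) :
    Real.exp (-Theta z) = 4 * ‖z‖ ^ 2 * (1 - ‖z‖ ^ 2) := by
  unfold Theta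
  rw [neg_neg, Real.exp_log (Theta_arg hz).1]

lemma norm_lt_one_iff {z : E2} : ‖z‖ < 1 ↔ ‖z 0‖ ^ 2 + ‖z 1‖ ^ 2 < 1 := by
  rw [← norm_sq]
  exact (pow_lt_one_iff_of_nonneg (norm_nonneg _) two_ne_zero).symm

section

variable {k e : ℝ} (hk : 0 < k) (he : 0 < e)
  (hT : ∀ z : ℂ, ‖z - 1 / 2‖ ≤ 1 / 5 → Psi k e (‖z - 1 / 2‖ ^ 2) ≤ Theta z)

include hk in
lemma exp_le_one (u : ℝ) : Real.exp (-Psi k e u) ≤ 1 := by
  rw [Real.exp_le_one_iff]
  have := Psi_nonneg (e := e) hk.le u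
  linarith

include hT in
lemma near {z : E2} (hz : z ∈ Dom k e) (h : ‖z 0 - 1 / 2‖ ≤ 1 / 5) :
    4 * ‖z 0‖ ^ 2 * ‖z 1‖ ^ 2 < 1 := by
  rw [mem_Dom] at hz
  have h1 : Real.exp (-Theta (z 0)) ≤ Real.exp (-Psi k e (‖z 0 - 1 / 2‖ ^ 2)) := by
    rw [Real.exp_le_exp]
    have := hT _ h
    linarith
  rw [exp_Theta h] at h1
  have h2 : ‖z 1‖ ^ 2 * (4 * ‖z 0‖ ^ 2 * (1 - ‖z 0‖ ^ 2)) < 1 - ‖z 0‖ ^ 2 :=
    lt_of_le_of_lt (by gcongr) hz
  obtain ⟨h3, h4⟩ := norm_bounds h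
  have h5 : 0 < 1 - ‖z 0‖ ^ 2 := by nlinarith
  have h6 : (4 * ‖z 0‖ ^ 2 * ‖z 1‖ ^ 2) * (1 - ‖z 0‖ ^ 2) < 1 * (1 - ‖z 0‖ ^ 2) := by linarith
  exact lt_of_mul_lt_mul_right h6 h5.le

include he in
lemma far {z : E2} (hz : z ∈ Dom k e) (h : 1 / 5 ≤ ‖z 0 - 1 / 2‖) : ‖z‖ < 1 := by
  rw [mem_Dom, Psi_eq_zero he (by nlinarith)] at hz
  rw [norm_lt_one_iff]
  simp only [neg_zero, Real.exp_zero, mul_one] at hz
  linarith

include hk he hT in
theorem gDom {c : ℂ} (hc : ‖c - 1 / 2‖ ≤ 1 / 5)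
    (hc2 : Psi k e (‖c - 1 / 2‖ ^ 2) = Theta c) : GDom (Dom k e) c := by
  obtain ⟨hc3, hc4⟩ := norm_bounds hc
  refine ⟨?_, ?_, by linarith, by nlinarith, ?_⟩
  · intro z hz
    rw [norm_lt_one_iff] at hz
    rw [mem_Dom]
    have h1 := exp_le_one (e := e) hk (‖z 0 - 1 / 2‖ ^ 2)
    have h2 : ‖z 1‖ ^ 2 * Real.exp (-Psi k e (‖z 0 - 1 / 2‖ ^ 2)) ≤ ‖z 1‖ ^ 2 * 1 := by gcongr
    linarith
  · intro z hz
    rcases le_total ‖z 0 - 1 / 2‖ (1 / 5) with h | h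
    · by_cases h1 : ‖z‖ < 1
      · exact Or.inl h1
      · right
        rw [norm_lt_one_iff, not_lt] at h1
        have h2 := near hT hz h
        obtain ⟨h3, h4⟩ := norm_bounds h
        constructor
        · apply le_of_pow_le_pow_left₀ two_ne_zero (norm_nonneg _)
          nlinarith
        · have h5 : (2 * ‖z 0‖ * ‖z 1‖) ^ 2 < 1 := by
            calc (2 * ‖z 0‖ * ‖z 1‖) ^ 2 = 4 * ‖z 0‖ ^ 2 * ‖z 1‖ ^ 2 := by ring
              _ < 1 := h2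
          exact (pow_lt_one_iff_of_nonneg (by positivity) two_ne_zero).mp h5
    · exact Or.inl (far he hz h)
  · intro ζ hζ
    rw [mem_Dom, pt_zero, pt_one, hc2, exp_Theta hc]
    have h1 : (2 * ‖c‖ * ‖ζ‖) ^ 2 < 1 :=
      (pow_lt_one_iff_of_nonneg (by positivity) two_ne_zero).mpr hζ
    have h2 : 0 < 1 - ‖c‖ ^ 2 := by nlinarith
    calc ‖ζ‖ ^ 2 * (4 * ‖c‖ ^ 2 * (1 - ‖c‖ ^ 2)) =
        (2 * ‖c‖ * ‖ζ‖) ^ 2 * (1 - ‖c‖ ^ 2) := by ring
      _ < 1 * (1 - ‖c‖ ^ 2) := by gcongr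
      _ = 1 - ‖c‖ ^ 2 := one_mul _

include he in
lemma isOpen_Dom : IsOpen (Dom k e) :=
  isOpen_lt (contDiff_rho he).continuous continuous_const

include he hT in
lemma isBounded_Dom : Bornology.IsBounded (Dom k e) := by
  apply (Metric.isBounded_ball (x := (0 : E2)) (r := 3)).subset
  intro z hz
  rw [mem_ball_zero_iff]
  rcases le_total ‖z 0 - 1 / 2‖ (1 / 5) with h | h
  · have h2 := near hT hz h
    obtain ⟨h3, h4⟩ := norm_bounds h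
    apply lt_of_pow_lt_pow_left₀ 2 (by norm_num)
    rw [norm_sq]
    have h5 : 9 / 100 ≤ ‖z 0‖ ^ 2 := by nlinarith
    have h6 : ‖z 0‖ ^ 2 ≤ 49 / 100 := by nlinarith
    have h7 : 4 * (9 / 100) * ‖z 1‖ ^ 2 ≤ 4 * ‖z 0‖ ^ 2 * ‖z 1‖ ^ 2 := by gcongr
    nlinarith
  · have := far he hz h
    linarith

lemma zero_mem_Dom (k e : ℝ) : (0 : E2) ∈ Dom k e := by
  rw [mem_Dom]
  simp

lemma isConnected_Dom (k e : ℝ) : IsConnected (Dom k e) := by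
  refine ⟨⟨0, zero_mem_Dom k e⟩, ?_⟩
  apply isPreconnected_of_forall (0 : E2)
  intro z hz
  -- the two segments
  set S₁ : Set E2 := (fun t : ℝ => pt (z 0) ((t : ℂ) * z 1)) '' Set.Icc 0 1 with hS₁
  set S₂ : Set E2 := (fun t : ℝ => pt ((t : ℂ) * z 0) 0) '' Set.Icc 0 1 with hS₂
  rw [mem_Dom] at hz
  have hz0 : ‖z 0‖ ^ 2 < 1 := by
    have : 0 ≤ ‖z 1‖ ^ 2 * Real.exp (-Psi k e (‖z 0 - 1 / 2‖ ^ 2)) := by positivity
    linarith
  have hc1 : Continuous fun t : ℝ => pt (z 0) ((t : ℂ) * z 1) := by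
    unfold pt
    fun_prop
  have hc2 : Continuous fun t : ℝ => pt ((t : ℂ) * z 0) 0 := by
    unfold pt
    fun_prop
  have h1 : IsPreconnected S₁ := (isPreconnected_Icc).image _ hc1.continuousOn
  have h2 : IsPreconnected S₂ := (isPreconnected_Icc).image _ hc2.continuousOn
  refine ⟨S₁ ∪ S₂, ?_, ?_, ?_, ?_⟩
  · rintro y (⟨t, ht, rfl⟩ | ⟨t, ht, rfl⟩)
    · rw [mem_Dom]
      simp only [pt_zero, pt_one]
      refine lt_of_le_of_lt ?_ hz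
      gcongr
      have h3 := mul_le_of_le_one_left (norm_nonneg (z 1)) ht.2
      rw [norm_mul, Complex.norm_real, Real.norm_of_nonneg ht.1]
      exact h3
    · rw [mem_Dom]
      simp only [pt_zero, pt_one, norm_zero, norm_mul, Complex.norm_real,
        Real.norm_of_nonneg ht.1]
      have : (t * ‖z 0‖) ^ 2 ≤ ‖z 0‖ ^ 2 := by
        have h3 := mul_le_of_le_one_left (norm_nonneg (z 0)) ht.2
        have h4 := mul_nonneg ht.1 (norm_nonneg (z 0))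
        gcongr
      simp only [ne_eq, OfNat.ofNat_ne_zero, not_false_eq_true, zero_pow, zero_mul]
      linarith
  · right
    refine ⟨0, by simp, ?_⟩
    ext i
    fin_cases i
    · simp
    · simp
  · left
    refine ⟨1, by simp, ?_⟩
    ext i
    fin_cases i
    · simp
    · simp
  · apply IsPreconnected.union (pt (z 0) 0) _ _ h1 h2
    · exact ⟨0, by simp, by simp⟩
    · exact ⟨1, by simp, by simp⟩

end

end Pool.Agent.Helper853.Gf
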