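import Pool.Agent.Helper853.Gf.Lower

open scoped Topology ENNReal ComplexConjugate
open MeasureTheory Filter

namespace Pool.Agent.Helper853.Gf

/-- the domains under consideration -/
structure GDom (Ω : Set E2) (c : ℂ) : Prop where
  ball : ∀ z : E2, ‖z‖ < 1 → z ∈ Ω
  sub : ∀ z ∈ Ω, ‖z‖ < 1 ∨ (‖z 0‖ ≤ ‖z 1‖ ∧ 2 * ‖z 0‖ * ‖z 1‖ < 1)
  cpos : 0 < ‖c‖
  clt : 2 * ‖c‖ ^ 2 < 1
  fib : ∀ ζ : ℂ, 2 * ‖c‖ * ‖ζ‖ < 1 → pt c ζ ∈ Ω

/-- the Green function with pole at the origin -/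
noncomputable def green (Ω : Set E2) (z : E2) : EReal := sSup {t | ∃ u, t = u z ∧ IsComp Ω 0 u}

variable {Ω : Set E2} {c : ℂ}

lemma green_left (h : GDom Ω c) {ζ : ℂ} (h0 : 0 < ‖ζ‖) (h1 : ‖ζ‖ ≤ ‖c‖) :
    green Ω (pt c ζ) = ((1 / 2 * Real.log (‖c‖ ^ 2 + ‖ζ‖ ^ 2) : ℝ) : EReal) := by
  have hn : ‖pt c ζ‖ ^ 2 = ‖c‖ ^ 2 + ‖ζ‖ ^ 2 := by rw [norm_sq, pt_zero, pt_one]
  have hc := h.cpos
  have hlt : ‖pt c ζ‖ < 1 := by
    have h2 := h.clt
    have : ‖pt c ζ‖ ^ 2 < 1 := by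
      rw [hn]
      have : ‖ζ‖ ^ 2 ≤ ‖c‖ ^ 2 := by gcongr
      linarith
    exact (pow_lt_one_iff_of_nonneg (norm_nonneg _) two_ne_zero).mp this
  have hne : pt c ζ ≠ 0 := by
    intro h2
    rw [h2, norm_zero] at hn
    have : 0 < ‖c‖ ^ 2 + ‖ζ‖ ^ 2 := by positivity
    simp only [ne_eq, OfNat.ofNat_ne_zero, not_false_eq_true, zero_pow] at hn
    linarith
  apply le_antisymm
  · apply sSup_le
    rintro t ⟨u, rfl, hu⟩
    have h3 := upper_ball h.ball hu hne hlt
    rwa [log_norm, pt_zero, pt_one] at h3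
  · set s : ℝ := ‖ζ‖ ^ 2 / (‖c‖ ^ 2 + ‖ζ‖ ^ 2) with hs
    have hs0 : 0 < s := by positivity
    have hs1 : s ≤ 1 / 2 := by
      rw [hs, div_le_iff₀ (by positivity)]
      have : ‖ζ‖ ^ 2 ≤ ‖c‖ ^ 2 := by gcongr
      linarith
    have hcomp := isComp_vf h.sub hs0 hs1
    have hz0 : (pt c ζ) 0 ≠ 0 := by rw [pt_zero]; exact norm_pos_iff.mp hc
    have hz1 : (pt c ζ) 1 ≠ 0 := by rw [pt_one]; exact norm_pos_iff.mp h0
    have hval : vf s (pt c ζ) = ((1 / 2 * Real.log (‖c‖ ^ 2 + ‖ζ‖ ^ 2) : ℝ) : EReal) := by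
      unfold vf
      rw [ENNReal.log_ofReal_of_pos (Pf_pos hs0 (by linarith) hz0 hz1)]
      have := log_Pf_cone hz0 hz1
      rw [pt_zero, pt_one] at this
      rw [← this]
    rw [← hval]
    exact le_sSup ⟨vf s, rfl, hcomp⟩

lemma green_right (h : GDom Ω c) {ζ : ℂ} (h1 : ‖c‖ ≤ ‖ζ‖) (h2 : 2 * ‖c‖ * ‖ζ‖ < 1) :
    green Ω (pt c ζ) = ((1 / 2 * Real.log (2 * ‖c‖ * ‖ζ‖) : ℝ) : EReal) := by
  have hc := h.cpos
  have h0 : 0 < ‖ζ‖ := by linarith
  apply le_antisymm
  · apply sSup_le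
    rintro t ⟨u, rfl, hu⟩
    exact upper_fiber h.ball hu hc h.clt h.fib h1 h2
  · have hcomp := isComp_vf (s := 1 / 2) h.sub (by norm_num) le_rfl
    have hz0 : (pt c ζ) 0 ≠ 0 := by rw [pt_zero]; exact norm_pos_iff.mp hc
    have hz1 : (pt c ζ) 1 ≠ 0 := by rw [pt_one]; exact norm_pos_iff.mp h0
    have hval : vf (1 / 2) (pt c ζ) = ((1 / 2 * Real.log (2 * ‖c‖ * ‖ζ‖) : ℝ) : EReal) := by
      unfold vf
      rw [ENNReal.log_ofReal_of_pos (Pf_pos (by norm_num) (by norm_num) hz0 hz1),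
        log_Pf (by norm_num) (by norm_num) hz0 hz1, pt_zero, pt_one]
      congr 1
      rw [Real.log_mul (by positivity) h0.ne', Real.log_mul (by norm_num) hc.ne']
      unfold cs
      rw [show (1 : ℝ) - 1 / 2 = 1 / 2 by norm_num, one_div, Real.log_inv]
      ring
    rw [← hval]
    exact le_sSup ⟨vf (1 / 2), rfl, hcomp⟩

/-- a function of one variable which is given by the two formulas is not of class `C²` -/
lemma not_contDiff {κ R : ℝ} (hκ : 0 < κ) (hκR : κ < R) {φ : ℝ → ℝ}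
    (h1 : ∀ r, 0 < r → r ≤ κ → φ r = 1 / 2 * Real.log (κ ^ 2 + r ^ 2))
    (h2 : ∀ r, κ ≤ r → r < R → φ r = 1 / 2 * Real.log (2 * κ * r))
    (hφ : ContDiffOn ℝ 2 φ (Set.Ioo 0 R)) : False := by
  have hD : ContDiffOn ℝ 1 (deriv φ) (Set.Ioo 0 R) :=
    hφ.deriv_of_isOpen isOpen_Ioo (by norm_num)
  have hκmem : κ ∈ Set.Ioo 0 R := ⟨hκ, hκR⟩
  have hDd : DifferentiableAt ℝ (deriv φ) κ :=
    (hD.differentiableOn (by norm_num)).differentiableAt (isOpen_Ioo.mem_nhds hκmem)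
  have hd := hDd.hasDerivAt
  set L := deriv (deriv φ) κ with hL
  -- derivatives of the two formulas
  have d1 : ∀ r : ℝ, 0 < r → HasDerivAt (fun r => 1 / 2 * Real.log (κ ^ 2 + r ^ 2))
      (r / (κ ^ 2 + r ^ 2)) r := by
    intro r hr
    have e1 : HasDerivAt (fun r : ℝ => κ ^ 2 + r ^ 2) (2 * r) r := by
      have := ((hasDerivAt_id r).pow 2).const_add (κ ^ 2)
      simpa using this
    have e2 := (e1.log (by positivity)).const_mul (1 / 2 : ℝ)
    refine e2.congr_deriv ?_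
    field_simp
  have d2 : ∀ r : ℝ, 0 < r → HasDerivAt (fun r => 1 / 2 * Real.log (2 * κ * r))
      (1 / (2 * r)) r := by
    intro r hr
    have e1 : HasDerivAt (fun r : ℝ => 2 * κ * r) (2 * κ) r := by
      have := (hasDerivAt_id r).const_mul (2 * κ)
      simpa using this
    have e2 := (e1.log (by positivity)).const_mul (1 / 2 : ℝ)
    refine e2.congr_deriv ?_
    field_simp
  have D1 : ∀ r, 0 < r → r < κ → deriv φ r = r / (κ ^ 2 + r ^ 2) := by
    intro r hr hrκ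
    rw [← (d1 r hr).deriv]
    apply Filter.EventuallyEq.deriv_eq
    filter_upwards [isOpen_Ioo.mem_nhds (show r ∈ Set.Ioo 0 κ from ⟨hr, hrκ⟩)] with x hx
    exact h1 x hx.1 hx.2.le
  have D2 : ∀ r, κ < r → r < R → deriv φ r = 1 / (2 * r) := by
    intro r hr hrR
    rw [← (d2 r (by linarith)).deriv]
    apply Filter.EventuallyEq.deriv_eq
    filter_upwards [isOpen_Ioo.mem_nhds (show r ∈ Set.Ioo κ R from ⟨hr, hrR⟩)] with x hx
    exact h2 x hx.1.le hx.2
  have Dκ : deriv φ κ = 1 / (2 * κ) := by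
    have t1 : Tendsto (deriv φ) (𝓝[>] κ) (𝓝 (deriv φ κ)) :=
      hDd.continuousAt.tendsto.mono_left nhdsWithin_le_nhds
    have t2 : Tendsto (fun r : ℝ => 1 / (2 * r)) (𝓝[>] κ) (𝓝 (1 / (2 * κ))) := by
      have : ContinuousAt (fun r : ℝ => 1 / (2 * r)) κ := by
        apply ContinuousAt.div continuousAt_const (by fun_prop)
        positivity
      exact this.tendsto.mono_left nhdsWithin_le_nhds
    apply tendsto_nhds_unique t1
    apply t2.congr'
    filter_upwards [Ioo_mem_nhdsGT hκR] with r hr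
    exact (D2 r hr.1 hr.2).symm
  -- derivative from the left
  have L1 : L = 0 := by
    have g1 : HasDerivAt (fun r : ℝ => r / (κ ^ 2 + r ^ 2)) 0 κ := by
      have e1 : HasDerivAt (fun r : ℝ => κ ^ 2 + r ^ 2) (2 * κ) κ := by
        have := ((hasDerivAt_id κ).pow 2).const_add (κ ^ 2)
        simpa using this
      have e2 := (hasDerivAt_id' κ).fun_div e1 (by positivity)
      refine e2.congr_deriv ?_
      field_simp
      ring
    have g2 : HasDerivWithinAt (deriv φ) 0 (Set.Iic κ) κ := by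
      apply g1.hasDerivWithinAt.congr_of_eventuallyEq
      · have : Set.Ioc 0 κ ∈ 𝓝[≤] κ := Ioc_mem_nhdsLE hκ
        filter_upwards [this] with r hr
        rcases hr.2.lt_or_eq with h | h
        · exact D1 r hr.1 h
        · rw [h, Dκ]
          field_simp
          ring
      · rw [Dκ]
        field_simp
        ring
    exact (uniqueDiffWithinAt_Iic κ).eq_deriv _ hd.hasDerivWithinAt g2
  have L2 : L = -1 / (2 * κ ^ 2) := by
    have g1 : HasDerivAt (fun r : ℝ => 1 / (2 * r)) (-1 / (2 * κ ^ 2)) κ := by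
      have e1 : HasDerivAt (fun r : ℝ => 2 * r) 2 κ := by
        have := (hasDerivAt_id κ).const_mul 2
        simpa using this
      have e2 := (hasDerivAt_const κ (1 : ℝ)).fun_div e1 (by positivity)
      refine e2.congr_deriv ?_
      field_simp
      ring
    have g2 : HasDerivWithinAt (deriv φ) (-1 / (2 * κ ^ 2)) (Set.Ici κ) κ := by
      apply g1.hasDerivWithinAt.congr_of_eventuallyEq
      · have : Set.Ico κ R ∈ 𝓝[≥] κ := Ico_mem_nhdsGE hκR
        filter_upwards [this] with r hr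
        rcases hr.1.lt_or_eq with h | h
        · exact D2 r h hr.2
        · rw [← h, Dκ]
      · rw [Dκ]
    exact (uniqueDiffWithinAt_Ici κ).eq_deriv _ hd.hasDerivWithinAt g2
  rw [L1] at L2
  have : -1 / (2 * κ ^ 2) < 0 := by
    apply div_neg_of_neg_of_pos (by norm_num) (by positivity)
  linarith

/-- the Green function is not of class `C²` -/
theorem green_not_C2 (h : GDom Ω c) : ¬ ∃ f : E2 → ℝ, ContDiffOn ℝ 2 f (Ω \ {0}) ∧
    ∀ z ∈ Ω \ {0}, ((f z : ℝ) : EReal) = green Ω z := by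
  rintro ⟨f, hf, hfg⟩
  have hc := h.cpos
  set κ : ℝ := ‖c‖ with hκ
  set R : ℝ := 1 / (2 * κ) with hR
  have hκR : κ < R := by
    rw [hR, lt_div_iff₀ (by positivity)]
    have := h.clt
    nlinarith
  have hmem : ∀ r : ℝ, 0 < r → r < R → pt c (r : ℂ) ∈ Ω \ {0} := by
    intro r hr hrR
    constructor
    · apply h.fib
      rw [Complex.norm_real, Real.norm_of_nonneg hr.le]
      rw [hR, lt_div_iff₀ (by positivity)] at hrR
      linarith
    · intro h0
      have h0' : pt c (r : ℂ) = 0 := h0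
      have h1 : (pt c (r : ℂ)) 0 = 0 := by rw [h0']; rfl
      rw [pt_zero] at h1
      rw [h1, norm_zero] at hκ
      linarith
  apply not_contDiff (κ := κ) (R := R) hc hκR (φ := fun r : ℝ => f (pt c (r : ℂ)))
  · intro r hr hrκ
    have h1 := hfg _ (hmem r hr (by linarith))
    have hn : ‖(r : ℂ)‖ = r := by rw [Complex.norm_real, Real.norm_of_nonneg hr.le]
    rw [green_left h (by rw [hn]; exact hr) (by rw [hn]; exact hrκ), hn] at h1
    exact_mod_cast h1
  · intro r hr hrR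
    have hr0 : 0 < r := by linarith
    have h1 := hfg _ (hmem r hr0 hrR)
    have hn : ‖(r : ℂ)‖ = r := by rw [Complex.norm_real, Real.norm_of_nonneg hr0.le]
    rw [green_right h (by rw [hn]; exact hr) (by
      rw [hn]
      rw [hR, lt_div_iff₀ (by positivity)] at hrR
      linarith), hn] at h1
    exact_mod_cast h1
  · apply hf.comp (t := Ω \ {0}) (g := f) (f := fun r : ℝ => pt c (r : ℂ))
    · apply ContDiff.contDiffOn
      unfold pt
      rw [contDiff_piLp]
      intro i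
      fin_cases i
      · exact contDiff_const
      · exact Complex.ofRealCLM.contDiff
    · intro r hr
      exact hmem r hr.1 hr.2

end Pool.Agent.Helper853.Gf
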