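import Pool.Agent.Helper853.Gf.Upper

open scoped Topology ENNReal ComplexConjugate
open MeasureTheory Filter

namespace Pool.Agent.Helper853.Gf

/-- the toric functions -/
noncomputable def Pf (s : ℝ) (z : E2) : ℝ :=
  (‖z 0‖ / Real.sqrt (1 - s)) ^ (1 - s) * (‖z 1‖ / Real.sqrt s) ^ s

/-- the toric competitors -/
noncomputable def vf (s : ℝ) (z : E2) : EReal := ENNReal.log (ENNReal.ofReal (Pf s z))

/-- the constants -/
noncomputable def cs (s : ℝ) : ℝ := -((1 - s) / 2 * Real.log (1 - s) + s / 2 * Real.log s)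

variable {s : ℝ}

lemma Pf_nonneg (s : ℝ) (z : E2) : 0 ≤ Pf s z := by unfold Pf; positivity

lemma continuous_Pf (h0 : 0 < s) (h1 : s < 1) : Continuous (Pf s) := by
  have e0 : Continuous fun z : E2 => ‖z 0‖ := by fun_prop
  have e1 : Continuous fun z : E2 => ‖z 1‖ := by fun_prop
  unfold Pf
  apply Continuous.mul
  · exact (e0.div_const _).rpow_const fun z => Or.inr (by linarith)
  · exact (e1.div_const _).rpow_const fun z => Or.inr h0.le

lemma continuous_vf (h0 : 0 < s) (h1 : s < 1) : Continuous (vf s) :=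
  ENNReal.continuous_log.comp (ENNReal.continuous_ofReal.comp (continuous_Pf h0 h1))

lemma Pf_pos {z : E2} (h0 : 0 < s) (h1 : s < 1) (hz0 : z 0 ≠ 0) (hz1 : z 1 ≠ 0) : 0 < Pf s z := by
  have e0 : 0 < ‖z 0‖ := norm_pos_iff.mpr hz0
  have e1 : 0 < ‖z 1‖ := norm_pos_iff.mpr hz1
  have e2 : 0 < 1 - s := by linarith
  unfold Pf
  positivity

lemma Pf_eq_zero {z : E2} (h0 : 0 < s) (h1 : s < 1) (h : z 0 = 0 ∨ z 1 = 0) : Pf s z = 0 := by
  unfold Pf
  rcases h with h | h
  · rw [h, norm_zero, zero_div, Real.zero_rpow (by linarith), zero_mul]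
  · rw [h, norm_zero, zero_div, Real.zero_rpow h0.ne', mul_zero]

lemma log_Pf {z : E2} (h0 : 0 < s) (h1 : s < 1) (hz0 : z 0 ≠ 0) (hz1 : z 1 ≠ 0) :
    Real.log (Pf s z) = (1 - s) * Real.log ‖z 0‖ + s * Real.log ‖z 1‖ + cs s := by
  have e0 : 0 < ‖z 0‖ := norm_pos_iff.mpr hz0
  have e1 : 0 < ‖z 1‖ := norm_pos_iff.mpr hz1
  have e2 : 0 < 1 - s := by linarith
  unfold Pf cs
  rw [Real.log_mul (by positivity) (by positivity), Real.log_rpow (by positivity),
    Real.log_rpow (by positivity), Real.log_div e0.ne' (by positivity),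
    Real.log_div e1.ne' (by positivity), Real.log_sqrt e2.le, Real.log_sqrt h0.le]
  ring

/-- weighted arithmetic-geometric mean inequality -/
lemma Pf_le (h0 : 0 < s) (h1 : s < 1) (z : E2) : Pf s z ≤ ‖z‖ := by
  have e2 : 0 < 1 - s := by linarith
  have h := Real.geom_mean_le_arith_mean2_weighted (w₁ := 1 - s) (w₂ := s)
    (p₁ := (‖z 0‖ / Real.sqrt (1 - s)) ^ 2) (p₂ := (‖z 1‖ / Real.sqrt s) ^ 2) e2.le h0.le
    (by positivity) (by positivity) (by ring)
  have e3 : ((‖z 0‖ / Real.sqrt (1 - s)) ^ 2) ^ (1 - s) * ((‖z 1‖ / Real.sqrt s) ^ 2) ^ s =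
      (Pf s z) ^ 2 := by
    unfold Pf
    rw [mul_pow]
    congr 1
    · rw [← Real.rpow_natCast, ← Real.rpow_natCast, ← Real.rpow_mul (by positivity),
        ← Real.rpow_mul (by positivity), mul_comm]
    · rw [← Real.rpow_natCast, ← Real.rpow_natCast, ← Real.rpow_mul (by positivity),
        ← Real.rpow_mul (by positivity), mul_comm]
  have e4 : (1 - s) * (‖z 0‖ / Real.sqrt (1 - s)) ^ 2 + s * (‖z 1‖ / Real.sqrt s) ^ 2 =
      ‖z‖ ^ 2 := by
    rw [norm_sq, div_pow, div_pow, Real.sq_sqrt e2.le, Real.sq_sqrt h0.le]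
    field_simp
  rw [e3, e4] at h
  exact (pow_le_pow_iff_left₀ (Pf_nonneg s z) (norm_nonneg z) two_ne_zero).mp h

/-- the value of the toric function on the right cone -/
lemma log_Pf_cone {z : E2} (hz0 : z 0 ≠ 0) (hz1 : z 1 ≠ 0) :
    Real.log (Pf (‖z 1‖ ^ 2 / (‖z 0‖ ^ 2 + ‖z 1‖ ^ 2)) z) =
      1 / 2 * Real.log (‖z 0‖ ^ 2 + ‖z 1‖ ^ 2) := by
  have e0 : 0 < ‖z 0‖ := norm_pos_iff.mpr hz0
  have e1 : 0 < ‖z 1‖ := norm_pos_iff.mpr hz1
  set N := ‖z 0‖ ^ 2 + ‖z 1‖ ^ 2 with hN
  have hNpos : 0 < N := by positivity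
  have hs0 : 0 < ‖z 1‖ ^ 2 / N := by positivity
  have hs1 : ‖z 1‖ ^ 2 / N < 1 := by
    rw [div_lt_one hNpos]
    have : 0 < ‖z 0‖ ^ 2 := by positivity
    linarith
  have hs2 : 1 - ‖z 1‖ ^ 2 / N = ‖z 0‖ ^ 2 / N := by
    rw [hN]
    field_simp
    ring
  rw [log_Pf hs0 hs1 hz0 hz1]
  unfold cs
  rw [hs2, Real.log_div (by positivity) hNpos.ne', Real.log_div (by positivity) hNpos.ne',
    Real.log_pow, Real.log_pow]
  have hs3 : ‖z 0‖ ^ 2 / N + ‖z 1‖ ^ 2 / N = 1 := by
    rw [← hs2]
    ring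
  have hs4 : 1 / 2 * Real.log N = 1 / 2 * (‖z 0‖ ^ 2 / N + ‖z 1‖ ^ 2 / N) * Real.log N := by
    rw [hs3, mul_one]
  rw [hs4]
  push_cast
  ring

lemma cs_le (s : ℝ) : 2 * cs s ≤ Real.log 2 := by
  have h := Real.binEntropy_le_log_two (p := s)
  unfold Real.binEntropy at h
  rw [Real.log_inv, Real.log_inv] at h
  unfold cs
  linarith

/-- the toric function is less than one beyond the ball -/
lemma Pf_lt_one (h0 : 0 < s) (h1 : s ≤ 1 / 2) {z : E2}
    (hz : ‖z‖ < 1 ∨ (‖z 0‖ ≤ ‖z 1‖ ∧ 2 * ‖z 0‖ * ‖z 1‖ < 1)) : Pf s z < 1 := by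
  have h1' : s < 1 := by linarith
  rcases hz with hz | ⟨hz1, hz2⟩
  · exact lt_of_le_of_lt (Pf_le h0 h1' z) hz
  · by_cases hzero : z 0 = 0 ∨ z 1 = 0
    · rw [Pf_eq_zero h0 h1' hzero]
      exact one_pos
    · push Not at hzero
      have e0 : 0 < ‖z 0‖ := norm_pos_iff.mpr hzero.1
      have e1 : 0 < ‖z 1‖ := norm_pos_iff.mpr hzero.2
      have hpos := Pf_pos h0 h1' hzero.1 hzero.2
      have hlog : Real.log (Pf s z) < 0 := by
        rw [log_Pf h0 h1' hzero.1 hzero.2]
        have h3 := cs_le s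
        have h4 : Real.log ‖z 0‖ ≤ Real.log ‖z 1‖ := Real.log_le_log e0 hz1
        have h5 : Real.log (2 * ‖z 0‖ * ‖z 1‖) < 0 := Real.log_neg (by positivity) hz2
        rw [Real.log_mul (by positivity) e1.ne', Real.log_mul (by norm_num) e0.ne'] at h5
        have h6 : 0 ≤ (1 / 2 - s) * (Real.log ‖z 1‖ - Real.log ‖z 0‖) :=
          mul_nonneg (by linarith) (by linarith)
        nlinarith
      by_contra hcon
      push Not at hcon
      have := Real.log_nonneg hcon
      linarith

lemma ae_ne_zero {α β : ℂ} (hα : α ≠ 0) :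
    ∀ᵐ θ : ℝ, α + Complex.exp (θ * Complex.I) * β ≠ 0 := by
  have hcount : {θ : ℝ | α + Complex.exp (θ * Complex.I) * β = 0}.Countable := by
    by_cases hβ : β = 0
    · have : {θ : ℝ | α + Complex.exp (θ * Complex.I) * β = 0} = ∅ := by
        ext θ
        simp [hβ, hα]
      rw [this]
      exact Set.countable_empty
    · by_cases hne : {θ : ℝ | α + Complex.exp (θ * Complex.I) * β = 0}.Nonempty
      · obtain ⟨θ₁, hθ₁⟩ := hne
        have hθ₁' : α + Complex.exp (θ₁ * Complex.I) * β = 0 := hθ₁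
        apply (Set.countable_range fun k : ℤ => θ₁ + k * (2 * Real.pi)).mono
        intro θ hθ
        have hθ' : α + Complex.exp (θ * Complex.I) * β = 0 := hθ
        have h1 : Complex.exp (θ * Complex.I) = Complex.exp (θ₁ * Complex.I) := by
          apply mul_right_cancel₀ hβ
          linear_combination hθ' - hθ₁'
        obtain ⟨k, hk⟩ := Complex.exp_eq_exp_iff_exists_int.mp h1
        refine ⟨k, ?_⟩
        have h2 : (θ : ℂ) = θ₁ + k * (2 * Real.pi) := by
          have hI := Complex.I_ne_zero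
          apply mul_right_cancel₀ hI
          rw [hk]
          ring
        exact_mod_cast h2.symm
      · rw [Set.not_nonempty_iff_eq_empty] at hne
        rw [hne]
        exact Set.countable_empty
  have := hcount.ae_notMem (volume : Measure ℝ)
  filter_upwards [this] with θ hθ h
  exact hθ h

lemma log_mean {α β : ℂ} (hα : α ≠ 0) :
    IntervalIntegrable (fun θ : ℝ => Real.log ‖α + Complex.exp (θ * Complex.I) * β‖) volume 0
      (2 * Real.pi) ∧ 2 * Real.pi * Real.log ‖α‖ ≤ ∫ θ in (0 : ℝ)..(2 * Real.pi),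
      Real.log ‖α + Complex.exp (θ * Complex.I) * β‖ := by
  set f : ℂ → ℂ := fun ζ => α + ζ * β with hf
  have hfd : Differentiable ℂ f := by
    simp only [hf]
    fun_prop
  have hf0 : f 0 = α := by simp [hf]
  have hci : CircleIntegrable (fun z => Real.log ‖f z‖) 0 1 := by
    apply MeromorphicOn.circleIntegrable_log_norm
    intro z _
    exact (hfd.analyticAt z).meromorphicAt
  constructor
  · unfold CircleIntegrable at hci
    simpa [circleMap_zero, hf] using hci
  · have han : AnalyticOnNhd ℂ f (Metric.closedBall 0 |1|) := fun z _ => hfd.analyticAt z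
    have hj := han.circleAverage_log_norm one_ne_zero (by rw [hf0]; exact hα)
    rw [Real.circleAverage_def] at hj
    simp only [circleMap_zero, Complex.ofReal_one, one_mul, smul_eq_mul] at hj
    have hnn : 0 ≤ ∑ᶠ u, (MeromorphicOn.divisor f (Metric.closedBall 0 |1|) u : ℝ) *
        Real.log (‖(0 : ℂ) - u‖⁻¹) := by
      apply finsum_nonneg
      intro u
      by_cases hu : u ∈ Metric.closedBall (0 : ℂ) |1|
      · apply mul_nonneg (mod_cast MeromorphicOn.AnalyticOnNhd.divisor_nonneg han u)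
        rw [Real.log_inv, neg_nonneg]
        apply Real.log_nonpos (norm_nonneg _)
        simpa using hu
      · rw [Function.locallyFinsuppWithin.apply_eq_zero_of_notMem _ hu]
        simp
    have h1 : Real.log ‖α‖ ≤ (2 * Real.pi)⁻¹ * ∫ θ in (0 : ℝ)..(2 * Real.pi),
        Real.log ‖f (Complex.exp (θ * Complex.I))‖ := by
      rw [hj, hf0]
      linarith
    have hpi : (0 : ℝ) < 2 * Real.pi := by positivity
    have h2 := mul_le_mul_of_nonneg_left h1 hpi.le
    rwa [← mul_assoc, mul_inv_cancel₀ hpi.ne', one_mul] at h2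

/-- the toric functions are competitors -/
theorem isComp_vf {Ω : Set E2} (hΩ : ∀ z ∈ Ω, ‖z‖ < 1 ∨ (‖z 0‖ ≤ ‖z 1‖ ∧ 2 * ‖z 0‖ * ‖z 1‖ < 1))
    (h0 : 0 < s) (h1 : s ≤ 1 / 2) : IsComp Ω 0 (vf s) := by
  have h1' : s < 1 := by linarith
  have hneg : ∀ y ∈ Ω, vf s y < 0 := by
    intro y hy
    unfold vf
    rw [ENNReal.log_lt_zero_iff]
    rw [ENNReal.ofReal_lt_one]
    exact Pf_lt_one h0 h1 (hΩ y hy)
  refine ⟨(continuous_vf h0 h1').upperSemicontinuous.upperSemicontinuousOn _, hneg, ?_, ?_⟩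
  · refine ⟨0, 1, one_pos, ?_⟩
    intro y _ hy0 _
    rw [sub_zero, add_zero]
    have h2 : 0 < ‖y‖ := norm_pos_iff.mpr hy0
    rw [← ENNReal.log_ofReal_of_pos h2]
    unfold vf
    apply ENNReal.log_monotone
    exact ENNReal.ofReal_le_ofReal (Pf_le h0 h1' y)
  · intro a ha b r hr hdisc
    by_cases hzero : a 0 = 0 ∨ a 1 = 0
    · have h2 : vf s a = ⊥ := by
        unfold vf
        rw [Pf_eq_zero h0 h1' hzero]
        simp
      rw [h2, EReal.neg_bot, EReal.toENNReal_top, ENNReal.mul_top (by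
        simpa using Real.pi_pos)]
      exact le_top
    · push Not at hzero
      obtain ⟨ha0, ha1⟩ := hzero
      have hPa := Pf_pos h0 h1' ha0 ha1
      obtain ⟨i0, m0⟩ := log_mean (β := r * b 0) ha0
      obtain ⟨i1, m1⟩ := log_mean (β := r * b 1) ha1
      set L0 : ℝ → ℝ := fun θ => Real.log ‖a 0 + Complex.exp (θ * Complex.I) * (r * b 0)‖
        with hL0
      set L1 : ℝ → ℝ := fun θ => Real.log ‖a 1 + Complex.exp (θ * Complex.I) * (r * b 1)‖
        with hL1
      set F : ℝ → ℝ := fun θ => -((1 - s) * L0 θ + s * L1 θ + cs s) with hF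
      have hFi : IntervalIntegrable F volume 0 (2 * Real.pi) :=
        (((i0.const_mul (1 - s)).add (i1.const_mul s)).add intervalIntegrable_const).neg
      have hpi : (0 : ℝ) < 2 * Real.pi := by positivity
      have hFi' : IntegrableOn F (Set.Icc 0 (2 * Real.pi)) := by
        rw [integrableOn_Icc_iff_integrableOn_Ioc]
        exact (intervalIntegrable_iff_integrableOn_Ioc_of_le hpi.le).mp hFi
      have hcirc : ∀ θ : ℝ, a + ((r : ℂ) * Complex.exp ((θ : ℂ) * Complex.I)) • b ∈ Ω := by
        intro θ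
        apply hdisc
        rw [norm_mul, Complex.norm_exp_ofReal_mul_I, mul_one, Complex.norm_real,
          Real.norm_of_nonneg hr.le]
      have hcoord : ∀ (θ : ℝ) (i : Fin 2),
          (a + ((r : ℂ) * Complex.exp ((θ : ℂ) * Complex.I)) • b) i =
            a i + Complex.exp (θ * Complex.I) * (r * b i) := by
        intro θ i
        simp only [PiLp.add_apply, PiLp.smul_apply, smul_eq_mul]
        ring
      have hae : ∀ᵐ θ : ℝ ∂(volume.restrict (Set.Icc (0 : ℝ) (2 * Real.pi))),
          EReal.toENNReal (-(vf s (a + ((r : ℂ) * Complex.exp ((θ : ℂ) * Complex.I)) • b))) =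
            ENNReal.ofReal (F θ) ∧ 0 ≤ F θ := by
        apply ae_restrict_of_ae
        filter_upwards [ae_ne_zero (β := r * b 0) ha0, ae_ne_zero (β := r * b 1) ha1]
          with θ hθ0 hθ1
        set z := a + ((r : ℂ) * Complex.exp ((θ : ℂ) * Complex.I)) • b with hz
        have hz0 : z 0 ≠ 0 := by rw [hz, hcoord]; exact hθ0
        have hz1 : z 1 ≠ 0 := by rw [hz, hcoord]; exact hθ1
        have hP := Pf_pos h0 h1' hz0 hz1
        have hlt := Pf_lt_one h0 h1 (hΩ z (hcirc θ))
        have hlog : Real.log (Pf s z) = -(F θ) := by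
          rw [log_Pf h0 h1' hz0 hz1]
          simp only [hF, hL0, hL1, neg_neg]
          rw [← hcoord, ← hcoord]
        have hv : vf s z = ((-(F θ) : ℝ) : EReal) := by
          unfold vf
          rw [ENNReal.log_ofReal_of_pos hP, hlog]
        constructor
        · rw [hv, ← EReal.coe_neg, neg_neg, EReal.toENNReal_of_ne_top (EReal.coe_ne_top _),
            EReal.toReal_coe]
        · have := Real.log_neg hP hlt
          linarith
      calc ∫⁻ θ in Set.Icc (0 : ℝ) (2 * Real.pi),
          EReal.toENNReal (-(vf s (a + ((r : ℂ) * Complex.exp ((θ : ℂ) * Complex.I)) • b)))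
          = ∫⁻ θ in Set.Icc (0 : ℝ) (2 * Real.pi), ENNReal.ofReal (F θ) := by
            apply lintegral_congr_ae
            filter_upwards [hae] with θ hθ
            exact hθ.1
        _ = ENNReal.ofReal (∫ θ in Set.Icc (0 : ℝ) (2 * Real.pi), F θ) := by
            symm
            apply ofReal_integral_eq_lintegral_ofReal hFi'
            filter_upwards [hae] with θ hθ
            exact hθ.2
        _ ≤ ENNReal.ofReal (2 * Real.pi * -(Real.log (Pf s a))) := by
            apply ENNReal.ofReal_le_ofReal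
            rw [integral_Icc_eq_integral_Ioc, ← intervalIntegral.integral_of_le hpi.le]
            simp only [hF]
            rw [intervalIntegral.integral_neg, intervalIntegral.integral_add
              ((i0.const_mul (1 - s)).add (i1.const_mul s)) intervalIntegrable_const,
              intervalIntegral.integral_add (i0.const_mul (1 - s)) (i1.const_mul s),
              intervalIntegral.integral_const_mul, intervalIntegral.integral_const_mul,
              intervalIntegral.integral_const, log_Pf h0 h1' ha0 ha1]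
            simp only [sub_zero, smul_eq_mul]
            have k0 : (1 - s) * (2 * Real.pi * Real.log ‖a 0‖) ≤
                (1 - s) * ∫ θ in (0 : ℝ)..(2 * Real.pi), L0 θ :=
              mul_le_mul_of_nonneg_left m0 (by linarith)
            have k1 : s * (2 * Real.pi * Real.log ‖a 1‖) ≤
                s * ∫ θ in (0 : ℝ)..(2 * Real.pi), L1 θ :=
              mul_le_mul_of_nonneg_left m1 h0.le
            nlinarith
        _ = ENNReal.ofReal (2 * Real.pi) * EReal.toENNReal (-(vf s a)) := by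
            rw [ENNReal.ofReal_mul hpi.le]
            congr 1
            unfold vf
            rw [ENNReal.log_ofReal_of_pos hPa, ← EReal.coe_neg,
              EReal.toENNReal_of_ne_top (EReal.coe_ne_top _), EReal.toReal_coe]

end Pool.Agent.Helper853.Gf
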