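import Pool.Agent.Helper853.Gf.Annulus

open scoped Topology ENNReal ComplexConjugate
open MeasureTheory Filter

namespace Pool.Agent.Helper853.Gf

/-- two dimensional complex Euclidean space -/
abbrev E2 := EuclideanSpace ℂ (Fin 2)

/-- the competitors in the definition of the Green function -/
def IsComp (Ω : Set E2) (w : E2) (u : E2 → EReal) : Prop :=
  UpperSemicontinuousOn u Ω ∧
  (∀ y ∈ Ω, u y < 0) ∧
  (∃ C : ℝ, ∃ δ : ℝ, 0 < δ ∧ ∀ y ∈ Ω, y ≠ w → ‖y - w‖ < δ →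
      u y ≤ ((Real.log ‖y - w‖ + C : ℝ) : EReal)) ∧
  ∀ a ∈ Ω, ∀ b : E2, ∀ r : ℝ, 0 < r →
    (∀ ζ : ℂ, ‖ζ‖ ≤ r → a + ζ • b ∈ Ω) →
    ∫⁻ θ in Set.Icc (0 : ℝ) (2 * Real.pi),
        EReal.toENNReal (-(u (a + ((r : ℂ) * Complex.exp ((θ : ℂ) * Complex.I)) • b)))
      ≤ ENNReal.ofReal (2 * Real.pi) * EReal.toENNReal (-(u a))

/-- the point `(a, b)` -/
noncomputable def pt (a b : ℂ) : E2 := !₂[a, b]

@[simp] lemma pt_zero (a b : ℂ) : pt a b 0 = a := rfl
@[simp] lemma pt_one (a b : ℂ) : pt a b 1 = b := rfl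

lemma norm_sq (z : E2) : ‖z‖ ^ 2 = ‖z 0‖ ^ 2 + ‖z 1‖ ^ 2 := by
  rw [EuclideanSpace.norm_sq_eq, Fin.sum_univ_two]

lemma log_norm (z : E2) : Real.log ‖z‖ = 1 / 2 * Real.log (‖z 0‖ ^ 2 + ‖z 1‖ ^ 2) := by
  rw [← norm_sq, Real.log_pow]
  push_cast
  ring

variable {Ω : Set E2} {u : E2 → EReal}

/-- the restriction of a competitor to a complex line satisfies the hypotheses of the maximum
principle -/
lemma line_sub {w : E2} (hu : IsComp Ω w u) {a b : E2} {r₁ r₂ : ℝ}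
    (hab : ∀ ζ ∈ Ann r₁ r₂, a + ζ • b ∈ Ω) :
    UpperSemicontinuousOn (fun ζ : ℂ => u (a + ζ • b)) (Ann r₁ r₂) ∧
    (∀ ζ ∈ Ann r₁ r₂, u (a + ζ • b) < 0) ∧
    (∀ (ζ₀ : ℂ) (ρ : ℝ), 0 < ρ → (∀ ζ : ℂ, ‖ζ - ζ₀‖ ≤ ρ → ζ ∈ Ann r₁ r₂) →
      ∫⁻ θ in Set.Icc (0 : ℝ) (2 * Real.pi),
          EReal.toENNReal (-(u (a + (circleMap ζ₀ ρ θ) • b))) ≤
        ENNReal.ofReal (2 * Real.pi) * EReal.toENNReal (-(u (a + ζ₀ • b)))) := by
  obtain ⟨h1, h2, h3, h4⟩ := hu
  refine ⟨?_, fun ζ hζ => h2 _ (hab ζ hζ), ?_⟩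
  · exact UpperSemicontinuousOn.comp (s := Ω) (g := fun ζ : ℂ => a + ζ • b) h1 (by fun_prop) hab
  · intro ζ₀ ρ hρ hdisc
    have h5 := h4 (a + ζ₀ • b) (hab ζ₀ (hdisc ζ₀ (by simpa using hρ.le))) b ρ hρ (by
      intro ζ hζ
      have h6 := hab (ζ₀ + ζ) (hdisc _ (by simpa using hζ))
      rwa [add_smul, ← add_assoc] at h6)
    refine le_trans (le_of_eq ?_) h5
    apply lintegral_congr
    intro θ
    congr 3
    simp only [circleMap]
    rw [add_smul, ← add_assoc]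

/-- the upper bound of the competitors on the ball -/
theorem upper_ball (hΩ : ∀ z : E2, ‖z‖ < 1 → z ∈ Ω) (hu : IsComp Ω 0 u) {z : E2} (hz0 : z ≠ 0)
    (hz1 : ‖z‖ < 1) : u z ≤ ((Real.log ‖z‖ : ℝ) : EReal) := by
  have hzn : 0 < ‖z‖ := norm_pos_iff.mpr hz0
  obtain ⟨C, δ, hδ, hC⟩ := hu.2.2.1
  -- the estimate on an annulus
  have key : ∀ r₁ r₂ : ℝ, 0 < r₁ → r₁ < 1 → 1 < r₂ → r₂ * ‖z‖ < 1 → r₁ * ‖z‖ < δ →
      u z ≤ (((Real.log r₁ + (Real.log ‖z‖ + C)) * Real.log r₂ / (Real.log r₂ - Real.log r₁) :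
        ℝ) : EReal) := by
    intro r₁ r₂ h1 h11 h2 h21 h1δ
    have hl1 : Real.log r₁ < 0 := Real.log_neg h1 h11
    have hl2 : 0 < Real.log r₂ := Real.log_pos h2
    have hd : 0 < Real.log r₂ - Real.log r₁ := by linarith
    set b₁ : ℝ := Real.log r₁ + (Real.log ‖z‖ + C) with hb₁
    set A : ℝ := -b₁ / (Real.log r₂ - Real.log r₁) with hA
    set B : ℝ := -A * Real.log r₂ with hB
    have hmem : ∀ ζ ∈ Ann r₁ r₂, (0 : E2) + ζ • z ∈ Ω := by
      intro ζ hζ
      apply hΩ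
      rw [zero_add, norm_smul]
      calc ‖ζ‖ * ‖z‖ ≤ r₂ * ‖z‖ := by
            have := hζ.2
            gcongr
        _ < 1 := h21
    obtain ⟨e1, e2, e3⟩ := line_sub hu hmem
    have hm := annulus_max (A := A) (B := B) h1 e1 e2 e3 (by
        intro ζ hζ hr12
        have h5 : (0 : E2) + ζ • z ∈ Ω := hmem ζ ⟨hζ.ge, by linarith⟩
        have h6 : ‖ζ • z‖ = r₁ * ‖z‖ := by rw [norm_smul, hζ]
        have h7 : ζ • z ≠ 0 := by
          rw [← norm_pos_iff, h6]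
          positivity
        rw [zero_add] at h5 ⊢
        have h8 := hC _ h5 h7 (by rw [sub_zero, h6]; exact h1δ)
        rw [sub_zero, h6, Real.log_mul h1.ne' hzn.ne'] at h8
        refine h8.trans (le_of_eq ?_)
        congr 1
        rw [hB, hA]
        field_simp
        rw [hb₁]
        ring) (by
        intro ζ hζ hr12
        have h5 := e2 ζ ⟨by linarith, hζ.le⟩
        refine h5.le.trans (le_of_eq ?_)
        have : A * Real.log r₂ + B = 0 := by
          rw [hB]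
          ring
        rw [this]
        rfl) 1 ⟨by simpa using h11.le, by simpa using h2.le⟩
    rw [zero_add, one_smul, norm_one, Real.log_one, mul_zero, zero_add] at hm
    refine hm.trans (le_of_eq ?_)
    congr 1
    rw [hB, hA]
    field_simp
  -- first limit
  have key2 : ∀ r₂ : ℝ, 1 < r₂ → r₂ * ‖z‖ < 1 → u z ≤ ((-Real.log r₂ : ℝ) : EReal) := by
    intro r₂ h2 h21
    have hlim : Tendsto (fun r₁ : ℝ => (Real.log r₁ + (Real.log ‖z‖ + C)) * Real.log r₂ /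
        (Real.log r₂ - Real.log r₁)) (𝓝[>] 0) (𝓝 (-Real.log r₂)) := by
      have hl : Tendsto Real.log (𝓝[>] 0) atBot := Real.tendsto_log_nhdsGT_zero
      have h3 : Tendsto (fun x : ℝ => (x + (Real.log ‖z‖ + C)) * Real.log r₂ /
          (Real.log r₂ - x)) atBot (𝓝 (-Real.log r₂)) := by
        have h4 : Tendsto (fun x : ℝ => Real.log r₂ - x) atBot atTop :=
          tendsto_atTop_add_const_left _ _ tendsto_neg_atBot_atTop
        have h5 : Tendsto (fun x : ℝ => -Real.log r₂ +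
            (Real.log r₂ + (Real.log ‖z‖ + C)) * Real.log r₂ / (Real.log r₂ - x)) atBot
            (𝓝 (-Real.log r₂ + 0)) := by
          apply Tendsto.add tendsto_const_nhds
          exact Tendsto.div_atTop tendsto_const_nhds h4
        rw [add_zero] at h5
        apply h5.congr'
        filter_upwards [eventually_lt_atBot (Real.log r₂)] with x hx
        have : Real.log r₂ - x ≠ 0 := by linarith
        field_simp
        ring
      exact h3.comp hl
    have hlim2 := (continuous_coe_real_ereal.tendsto _).comp hlim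
    apply ge_of_tendsto hlim2
    have hev : ∀ᶠ r₁ : ℝ in 𝓝[>] 0, 0 < r₁ ∧ r₁ < 1 ∧ r₁ * ‖z‖ < δ := by
      have h3 : Set.Ioo (0 : ℝ) (min 1 (δ / ‖z‖)) ∈ 𝓝[>] (0 : ℝ) :=
        Ioo_mem_nhdsGT (lt_min one_pos (by positivity))
      filter_upwards [h3] with x hx
      refine ⟨hx.1, hx.2.trans_le (min_le_left _ _), ?_⟩
      have h4 := hx.2.trans_le (min_le_right _ _)
      rwa [lt_div_iff₀ hzn] at h4
    filter_upwards [hev] with r₁ h
    exact key r₁ r₂ h.1 h.2.1 h2 h21 h.2.2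
  -- second limit
  have hinv : 1 < 1 / ‖z‖ := by
    rw [lt_div_iff₀ hzn]
    linarith
  have hlim : Tendsto (fun r₂ : ℝ => -Real.log r₂) (𝓝[<] (1 / ‖z‖)) (𝓝 (Real.log ‖z‖)) := by
    have h3 : ContinuousAt (fun r₂ : ℝ => -Real.log r₂) (1 / ‖z‖) := by
      apply ContinuousAt.neg
      apply Real.continuousAt_log
      positivity
    have h4 : -Real.log (1 / ‖z‖) = Real.log ‖z‖ := by
      rw [one_div, Real.log_inv, neg_neg]
    have h5 := h3.tendsto
    simp only [h4] at h5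
    exact h5.mono_left nhdsWithin_le_nhds
  have hlim2 := (continuous_coe_real_ereal.tendsto _).comp hlim
  apply ge_of_tendsto hlim2
  filter_upwards [Ioo_mem_nhdsLT hinv] with r₂ h
  apply key2 r₂ h.1
  have := h.2
  rwa [lt_div_iff₀ hzn] at this

/-- the upper bound of the competitors on a fibre -/
theorem upper_fiber (hΩ : ∀ z : E2, ‖z‖ < 1 → z ∈ Ω) (hu : IsComp Ω 0 u) {c : ℂ}
    (hc0 : 0 < ‖c‖) (hc1 : 2 * ‖c‖ ^ 2 < 1)
    (hfib : ∀ ζ : ℂ, 2 * ‖c‖ * ‖ζ‖ < 1 → pt c ζ ∈ Ω) {ζ : ℂ}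
    (hζ1 : ‖c‖ ≤ ‖ζ‖) (hζ2 : 2 * ‖c‖ * ‖ζ‖ < 1) :
    u (pt c ζ) ≤ ((1 / 2 * Real.log (2 * ‖c‖ * ‖ζ‖) : ℝ) : EReal) := by
  have hζ0 : 0 < ‖ζ‖ := by linarith
  set R : ℝ := 1 / (2 * ‖c‖) with hR
  have hRpos : 0 < R := by positivity
  have hRc : ‖c‖ < R := by
    rw [hR, lt_div_iff₀ (by positivity)]
    nlinarith
  have hζR : ‖ζ‖ < R := by
    rw [hR, lt_div_iff₀ (by positivity)]
    linarith
  have hline : ∀ ξ : ℂ, pt c 0 + ξ • pt 0 1 = pt c ξ := by
    intro ξ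
    ext i
    fin_cases i
    · simp [pt]
    · simp [pt]
  set b₁ : ℝ := 1 / 2 * Real.log (2 * ‖c‖ ^ 2) with hb₁
  have key : ∀ r₂ : ℝ, ‖ζ‖ < r₂ → r₂ < R →
      u (pt c ζ) ≤ ((b₁ * (Real.log r₂ - Real.log ‖ζ‖) / (Real.log r₂ - Real.log ‖c‖) : ℝ) :
        EReal) := by
    intro r₂ h2 h2R
    have hc2 : ‖c‖ < r₂ := by linarith
    have hl2 : Real.log ‖c‖ < Real.log r₂ := Real.log_lt_log hc0 hc2
    have hd : 0 < Real.log r₂ - Real.log ‖c‖ := by linarith
    set A : ℝ := -b₁ / (Real.log r₂ - Real.log ‖c‖) with hA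
    set B : ℝ := -A * Real.log r₂ with hB
    have hmem : ∀ ξ ∈ Ann ‖c‖ r₂, pt c 0 + ξ • pt 0 1 ∈ Ω := by
      intro ξ hξ
      rw [hline]
      apply hfib
      have h3 : ‖ξ‖ < R := lt_of_le_of_lt hξ.2 h2R
      rw [hR, lt_div_iff₀ (by positivity)] at h3
      linarith
    obtain ⟨e1, e2, e3⟩ := line_sub hu hmem
    have hm := annulus_max (A := A) (B := B) hc0 e1 e2 e3 (by
        intro ξ hξ hr12
        rw [hline]
        have h5 : ‖pt c ξ‖ ^ 2 = 2 * ‖c‖ ^ 2 := by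
          rw [norm_sq, pt_zero, pt_one, hξ]
          ring
        have h6 : ‖pt c ξ‖ < 1 := by
          have : ‖pt c ξ‖ ^ 2 < 1 := by rw [h5]; exact hc1
          exact (pow_lt_one_iff_of_nonneg (norm_nonneg _) two_ne_zero).mp this
        have h7 : pt c ξ ≠ 0 := by
          intro h
          rw [h, norm_zero] at h5
          have : 0 < 2 * ‖c‖ ^ 2 := by positivity
          linarith
        have h8 := upper_ball hΩ hu h7 h6
        rw [log_norm, ← norm_sq, h5] at h8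
        refine h8.trans (le_of_eq ?_)
        congr 1
        rw [hB, hA]
        field_simp
        rw [hb₁]
        ring) (by
        intro ξ hξ hr12
        have h5 := e2 ξ ⟨by linarith, hξ.le⟩
        refine h5.le.trans (le_of_eq ?_)
        have : A * Real.log r₂ + B = 0 := by
          rw [hB]
          ring
        rw [this]
        rfl) ζ ⟨hζ1, h2.le⟩
    rw [hline] at hm
    refine hm.trans (le_of_eq ?_)
    congr 1
    rw [hB, hA]
    field_simp
    ring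
  have hlR : Real.log R = -Real.log (2 * ‖c‖) := by
    rw [hR, one_div, Real.log_inv]
  have hlc : Real.log (2 * ‖c‖) = Real.log 2 + Real.log ‖c‖ :=
    Real.log_mul (by norm_num) hc0.ne'
  have hb₁' : b₁ = 1 / 2 * (Real.log 2 + 2 * Real.log ‖c‖) := by
    rw [hb₁, Real.log_mul (by norm_num) (by positivity), Real.log_pow]
    push_cast
    ring
  have hdR : 0 < Real.log R - Real.log ‖c‖ := by
    have := Real.log_lt_log hc0 hRc
    linarith
  have hval : b₁ * (Real.log R - Real.log ‖ζ‖) / (Real.log R - Real.log ‖c‖) =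
      1 / 2 * Real.log (2 * ‖c‖ * ‖ζ‖) := by
    rw [Real.log_mul (by positivity) hζ0.ne', div_eq_iff hdR.ne', hb₁', hlR, hlc]
    ring
  have hlim : Tendsto (fun r₂ : ℝ => b₁ * (Real.log r₂ - Real.log ‖ζ‖) /
      (Real.log r₂ - Real.log ‖c‖)) (𝓝[<] R) (𝓝 (1 / 2 * Real.log (2 * ‖c‖ * ‖ζ‖))) := by
    rw [← hval]
    have h3 : ContinuousAt (fun r₂ : ℝ => b₁ * (Real.log r₂ - Real.log ‖ζ‖) /
      (Real.log r₂ - Real.log ‖c‖)) R := by
      have hl : ContinuousAt Real.log R := Real.continuousAt_log hRpos.ne'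
      apply ContinuousAt.div
      · exact continuousAt_const.mul (hl.sub continuousAt_const)
      · exact hl.sub continuousAt_const
      · exact hdR.ne'
    exact h3.tendsto.mono_left nhdsWithin_le_nhds
  have hlim2 := (continuous_coe_real_ereal.tendsto _).comp hlim
  apply ge_of_tendsto hlim2
  filter_upwards [Ioo_mem_nhdsLT hζR] with r₂ h
  exact key r₂ h.1 h.2

end Pool.Agent.Helper853.Gf
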